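import Pool.Agent.N912.EP.N912ELStm
import Pool.Agent.N912.EP.W99EGPerx

/-!
Project EL (helper912), part 11: the estimate for fixed `X` with a complex coefficient `u p` at
every prime (port of W99.EG.Perx by helper232).
-/

set_option autoImplicit false

namespace Pool.Agent.N912.EP.N232EL

open Finset Filter
open Pool.Agent.W78.GA (Qd nm prim dt ip lat cellM mE ball pball edge dedge ang Ele)
open Pool.Agent.W78.EC (Tr av)
open Pool.Agent.N912.EP.W78EG
open Pool.Agent.N912.EP.W99EG (PQ_mem th_sum good_edge bijC)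
open Pool.Agent.N912.EP.N912EL

variable {t c : ℤ} {f : ℕ} {χ : PS f}

/-- the average is linear -/
theorem av_lin {A : Type} (p : ℕ) (a b : ℝ) (z₁ z₂ : Tr A → ℕ × ℕ × ℕ × ℕ → ℝ) (T : Tr A) :
    av p (fun T y => a * z₁ T y + b * z₂ T y) T = a * av p z₁ T + b * av p z₂ T := by
  unfold av
  rw [sum_add_distrib, ← mul_sum, ← mul_sum]
  ring

theorem th_sumu (u : ℕ → ℂ) (Q : ℕ) (d : ℤ) :
    ∑ p ∈ PQ χ Q, (Real.log p : ℂ) * (u p * (if d = p then (1 : ℂ) else 0)) =
      u d.toNat * (th χ Q d : ℂ) := by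
  have h : ∀ p ∈ PQ χ Q, (Real.log p : ℂ) * (u p * (if d = p then (1 : ℂ) else 0)) =
      u d.toNat * ((Real.log p * (if d = p then (1 : ℝ) else 0) : ℝ) : ℂ) := by
    intro p _
    split_ifs with h
    · have : d.toNat = p := by omega
      rw [this]
      push_cast
      ring
    · simp
  rw [sum_congr rfl h, ← mul_sum, ← Complex.ofReal_sum, th_sum]

open scoped Classical in
/-- PERa: the estimate for fixed `X` -/
theorem pera (_ : Fd t c f χ) (h5 : S_BIJ t c χ) : S_PERa t c χ := by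
  intro K κ Q X A d₁ d₂ lab ϖ r u ζ₁ ζ₂ hK hκ hQ hX hϖ hζ
  have hQ0 : (0 : ℝ) < Q := by exact_mod_cast hQ
  have hQC : (Q : ℂ) ≠ 0 := by
    have : Q ≠ 0 := by omega
    exact_mod_cast this
  set FF : ℕ → ℂ := fun p => ∑ e ∈ (dedge t c (X / p)).filter (InG K κ Q X (ϖ p)),
    d₁ (lab (ϖ p * e.1)) * d₂ (lab (ϖ p * e.2)) with hF
  set Z : ℕ → Qd t c × Qd t c → ℂ := fun p e => ((ζ₁ p (TT lab X e) (res p e) : ℝ) : ℂ) +
    Complex.I * ((ζ₂ p (TT lab X e) (res p e) : ℝ) : ℂ) with hZ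
  set V : ℕ → Qd t c × Qd t c → ℂ := fun p e => ((av p (ζ₁ p) (TT lab X e) : ℝ) : ℂ) +
    Complex.I * ((av p (ζ₂ p) (TT lab X e) : ℝ) : ℂ) with hV
  -- step a
  have hA : ∀ p ∈ PQ χ Q, ((p : ℂ) + 1) * FF p = 2 * Q * ∑ e ∈ good t c K κ Q X, Z p e := by
    intro p hp
    obtain ⟨a1, a2, a3⟩ := hϖ p hp
    have h1 := bijC h5 K κ Q X p (ϖ p) (r p) (fun z => d₁ (lab z)) (fun z => d₂ (lab z)) hK hκ hQ
      hX hp a1 a2 a3
    rw [hF]
    simp only
    rw [← h1, sum_congr rfl fun e he => (hζ e he p hp).1, ← mul_sum, ← mul_assoc]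
    congr 1
    push_cast
    field_simp
  -- step b
  have hBB : 2 * (Q : ℂ) * ∑ e ∈ good t c K κ Q X, ∑ p ∈ PQ χ Q, (Real.log p : ℂ) * (u p * V p e) =
      ∑ e ∈ good t c K κ Q X, ∑ v ∈ cone X e.1 e.2, ∑ w ∈ cone X e.1 e.2,
        d₁ (lab v) * d₂ (lab w) * (u (dt v w).toNat * (th χ Q (dt v w) : ℂ)) := by
    rw [mul_sum]
    refine sum_congr rfl fun e he => ?_
    have h1 : ∀ p ∈ PQ χ Q, (Real.log p : ℂ) * (u p * V p e) =
        1 / (2 * Q) * ∑ z ∈ cone X e.1 e.2, ∑ w ∈ cone X e.1 e.2,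
          (d₁ (lab z) * d₂ (lab w)) *
            ((Real.log p : ℂ) * (u p * if dt z w = p then (1 : ℂ) else 0)) := by
      intro p hp
      have h2 : V p e = _ := (hζ e he p hp).2
      rw [h2]
      have h3 : (Real.log p : ℂ) * (u p * (((1 / (2 * (Q : ℝ)) : ℝ) : ℂ) *
          ∑ z ∈ cone X e.1 e.2, ∑ w ∈ cone X e.1 e.2,
          (if dt z w = p then d₁ (lab z) * d₂ (lab w) else 0))) =
          1 / (2 * Q) * (((Real.log p : ℂ) * u p) * ∑ z ∈ cone X e.1 e.2, ∑ w ∈ cone X e.1 e.2,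
          (if dt z w = p then d₁ (lab z) * d₂ (lab w) else 0)) := by
        push_cast
        ring
      rw [h3]
      congr 1
      rw [mul_sum]
      refine sum_congr rfl fun z _ => ?_
      rw [mul_sum]
      refine sum_congr rfl fun w _ => ?_
      split_ifs <;> ring
    rw [sum_congr rfl h1, ← mul_sum, ← mul_assoc, mul_one_div_cancel (by
      exact mul_ne_zero two_ne_zero hQC), one_mul, sum_comm]
    refine sum_congr rfl fun z _ => ?_
    rw [sum_comm]
    refine sum_congr rfl fun w _ => ?_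
    rw [← mul_sum, th_sumu]
  -- decomposition
  set D : ℕ → Qd t c × Qd t c → ℂ := fun p e => u p * Z p e - u p * V p e with hD
  have hdec : ∑ p ∈ PQ χ Q, ((Real.log p * ((p : ℝ) + 1) : ℝ) : ℂ) * (u p * FF p) =
      2 * Q * ∑ e ∈ good t c K κ Q X, ∑ p ∈ PQ χ Q, (Real.log p : ℂ) * D p e +
      2 * Q * ∑ e ∈ good t c K κ Q X, ∑ p ∈ PQ χ Q, (Real.log p : ℂ) * (u p * V p e) := by
    rw [← mul_add, ← sum_add_distrib]
    have h1 : ∀ e ∈ good t c K κ Q X, (∑ p ∈ PQ χ Q, (Real.log p : ℂ) * D p e +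
        ∑ p ∈ PQ χ Q, (Real.log p : ℂ) * (u p * V p e)) =
        ∑ p ∈ PQ χ Q, ((Real.log p : ℂ) * u p) * Z p e := by
      intro e _
      rw [← sum_add_distrib]
      refine sum_congr rfl fun p _ => ?_
      rw [hD]
      ring
    rw [sum_congr rfl h1, sum_comm, mul_sum]
    refine sum_congr rfl fun p hp => ?_
    rw [← mul_sum]
    have h2 := hA p hp
    have h4 : ((Real.log p * ((p : ℝ) + 1) : ℝ) : ℂ) = (Real.log p : ℂ) * ((p : ℂ) + 1) := by
      push_cast
      ring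
    rw [h4]
    calc (Real.log p : ℂ) * ((p : ℂ) + 1) * (u p * FF p) =
        (Real.log p : ℂ) * u p * (((p : ℂ) + 1) * FF p) := by ring
      _ = _ := by rw [h2]; ring
  rw [hdec, hBB]
  refine (norm_add_le _ _).trans (add_le_add ?_ le_rfl)
  rw [norm_mul]
  have h2Q : ‖(2 * (Q : ℂ))‖ = 2 * Q := by
    rw [norm_mul, Complex.norm_natCast]
    simp
  rw [h2Q]
  refine mul_le_mul_of_nonneg_left ?_ (by positivity)
  refine (norm_sum_le _ _).trans ?_
  refine le_trans (sum_le_sum fun e _ => ?_) (sum_le_sum_of_subset_of_nonneg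
    (fun e he => good_edge he) (fun _ _ _ => add_nonneg (abs_nonneg _) (abs_nonneg _)))
  have h3 : ∑ p ∈ PQ χ Q, (Real.log p : ℂ) * D p e =
      ((∑ p ∈ PQ χ Q, Real.log p *
          (((u p).re * ζ₁ p (TT lab X e) (res p e) - (u p).im * ζ₂ p (TT lab X e) (res p e)) -
            av p (fun T y => (u p).re * ζ₁ p T y - (u p).im * ζ₂ p T y) (TT lab X e)) : ℝ) : ℂ) +
      Complex.I * ((∑ p ∈ PQ χ Q, Real.log p *
          (((u p).re * ζ₂ p (TT lab X e) (res p e) + (u p).im * ζ₁ p (TT lab X e) (res p e)) -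
            av p (fun T y => (u p).re * ζ₂ p T y + (u p).im * ζ₁ p T y) (TT lab X e)) : ℝ) : ℂ) := by
    rw [Complex.ofReal_sum, Complex.ofReal_sum, mul_sum, ← sum_add_distrib]
    refine sum_congr rfl fun p _ => ?_
    have a1 : av p (fun T y => (u p).re * ζ₁ p T y - (u p).im * ζ₂ p T y) (TT lab X e) =
        (u p).re * av p (ζ₁ p) (TT lab X e) + (-(u p).im) * av p (ζ₂ p) (TT lab X e) := by
      rw [← av_lin]
      congr 1
      funext T y
      ring
    have a2 : av p (fun T y => (u p).re * ζ₂ p T y + (u p).im * ζ₁ p T y) (TT lab X e) =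
        (u p).re * av p (ζ₂ p) (TT lab X e) + (u p).im * av p (ζ₁ p) (TT lab X e) := av_lin _ _ _ _ _ _
    rw [a1, a2, hD, hZ, hV]
    simp only
    generalize ζ₁ p (TT lab X e) (res p e) = x₁
    generalize ζ₂ p (TT lab X e) (res p e) = x₂
    generalize av p (ζ₁ p) (TT lab X e) = y₁
    generalize av p (ζ₂ p) (TT lab X e) = y₂
    generalize Real.log p = l
    apply Complex.ext <;> simp <;> first | ring1 | (left; ring1)
  rw [h3]
  refine (norm_add_le _ _).trans ?_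
  rw [norm_mul, Complex.norm_I, one_mul, Complex.norm_real, Complex.norm_real, Real.norm_eq_abs,
    Real.norm_eq_abs]

end Pool.Agent.N912.EP.N232EL
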