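import Pool.Agent.N912.EP.W143EGGood

/-! Project EG: port of W409.EC.Dcp (the entropy decrement argument) to imaginary quadratic
orders. -/

set_option autoImplicit false

namespace Pool.Agent.N912.EP.W143EG

open Finset
open Pool.Agent.W78.GA (Qd nm prim dt ip lat cellM mE ps DPG ball pball edge dedge ang Ele kap)
open Pool.Agent.W78.EC (Tr SL av rs cE rsf S_CE S_TUP S_CODE S_DV)
open Pool.Agent.N912.EP.W78EG
open Pool.Agent.W409.EC (ce_nonneg ce_chain ce_map ce_cond ce_card ce_low ce_le_add ce_swap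
  levels decr fin_est ell_le)

variable {t c : ℤ} {f : ℕ} {χ : PS f}

lemma ce_Rr (h1 : S_CE) (K q X₀ N : ℕ) (P : Finset ℕ) (hP : ∀ p ∈ P, 1 ≤ p) :
    cE (Om t c K q X₀ N) wt (Rr P) (fun _ => ()) ≤
      WW t c K q X₀ N * (4 * ∑ p ∈ P, Real.log p) := by
  classical
  have hw : ∀ ω ∈ Om t c K q X₀ N, 0 ≤ wt ω := fun ω _ => wt_nonneg ω
  let tt : Finset (ℕ → ℕ × ℕ × ℕ × ℕ) :=
    (P.pi (fun p => range p ×ˢ range p ×ˢ range p ×ˢ range p)).image
      (fun g p => if h : p ∈ P then g p h else default)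
  have ht : tt.card ≤ ∏ p ∈ P, p ^ 4 := by
    refine Finset.card_image_le.trans ?_
    rw [Finset.card_pi]
    refine le_of_eq (Finset.prod_congr rfl fun p _ => ?_)
    simp only [Finset.card_product, Finset.card_range]
    ring
  have hmem : ∀ ω ∈ Om t c K q X₀ N, Rr P ω ∈ tt := by
    intro ω _
    refine Finset.mem_image.2 ⟨fun p _ => res p ω.2, ?_, ?_⟩
    · rw [Finset.mem_pi]
      intro p hp
      unfold res
      simp only [Finset.mem_product, Finset.mem_range]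
      exact ⟨rs_lt (hP p hp) _, rs_lt (hP p hp) _, rs_lt (hP p hp) _, rs_lt (hP p hp) _⟩
    · funext p
      unfold Rr rsf
      by_cases hp : p ∈ P
      · simp [hp]
      · simp [hp]
  have hpos : 1 ≤ ∏ p ∈ P, p ^ 4 :=
    Nat.one_le_iff_ne_zero.2 (Finset.prod_ne_zero_iff.2 fun p hp =>
      pow_ne_zero 4 (by have := hP p hp; omega))
  have h2 := ce_card h1 hw (Rr P) (fun _ => ()) (∏ p ∈ P, p ^ 4) hpos tt ht hmem
  have h3 : Real.log ((∏ p ∈ P, p ^ 4 : ℕ) : ℝ) = 4 * ∑ p ∈ P, Real.log p := by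
    push_cast
    rw [Real.log_prod (fun p hp => pow_ne_zero 4 (by
      have := hP p hp
      exact_mod_cast (by omega : p ≠ 0))), Finset.mul_sum]
    refine Finset.sum_congr rfl fun p _ => ?_
    rw [Real.log_pow]
    norm_num
  rw [h3] at h2
  exact h2

lemma WW_bounds {c₀ C Y₁ : ℝ} (hE : ∀ Y : ℝ, Y₁ ≤ Y → c₀ * Y ≤ ((edge t c Y).card : ℝ) ∧
    ((edge t c Y).card : ℝ) ≤ C * Y) (K q X₀ N : ℕ)
    (hX : ∀ X ∈ Ioc X₀ N, Y₁ ≤ (X : ℝ) / (K * q)) :
    c₀ * (∑ X ∈ Ioc X₀ N, 1 / (X : ℝ)) / (K * q) ≤ WW t c K q X₀ N ∧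
      WW t c K q X₀ N ≤ C * (∑ X ∈ Ioc X₀ N, 1 / (X : ℝ)) / (K * q) := by
  rw [WW_eq]
  have h1 : ∀ (a : ℝ), a * (∑ X ∈ Ioc X₀ N, 1 / (X : ℝ)) / (K * q) =
      ∑ X ∈ Ioc X₀ N, 1 / (X : ℝ) ^ 2 * (a * ((X : ℝ) / (K * q))) := by
    intro a
    rw [Finset.mul_sum, Finset.sum_div]
    refine Finset.sum_congr rfl fun X hX => ?_
    have hX0 : (X : ℝ) ≠ 0 := by
      rw [Finset.mem_Ioc] at hX
      have : 0 < X := by omega
      positivity
    field_simp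
  rw [h1, h1]
  constructor
  · exact Finset.sum_le_sum fun X hX' =>
      mul_le_mul_of_nonneg_left (hE _ (hX X hX')).1 (by positivity)
  · exact Finset.sum_le_sum fun X hX' =>
      mul_le_mul_of_nonneg_left (hE _ (hX X hX')).2 (by positivity)

lemma WW_nonneg (K q X₀ N : ℕ) : 0 ≤ WW t c K q X₀ N := Finset.sum_nonneg fun ω _ => wt_nonneg ω

theorem dcp (_hF : Fd t c f χ) (h1 : S_CE) (h2 : S_TUP) (h3 : S_CODE) (h4 : S_DV) (h5 : S_TREE t c f) (h6 : S_ECNT t c)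
    (h7 : S_PCNT χ) (h8 : S_RESC t c) : S_DCP t c χ := by
  classical
  intro A _ K B ε hK hε Q₁
  obtain ⟨CA, hCA0, hCA⟩ := h3 A
  obtain ⟨c₁, C₁, Y₁, hc₁, hE⟩ := h6
  obtain ⟨c₂, C₂, hc₂, Qp, hP⟩ := h7
  obtain ⟨Cr, hCr, hR⟩ := h8
  have hC₁ : 0 < C₁ := by
    obtain ⟨e1, e2⟩ := hE (max Y₁ 1) (le_max_left _ _)
    have e3 : (0 : ℝ) < max Y₁ 1 := lt_of_lt_of_le one_pos (le_max_right _ _)
    have e4 := le_of_mul_le_mul_right (e1.trans e2) e3
    linarith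
  have hC₂ : 0 < C₂ := by
    obtain ⟨-, -, e1, e2⟩ := hP (max Qp 1) (le_max_left _ _)
    have e3 : (0 : ℝ) < ((max Qp 1 : ℕ) : ℝ) := by
      exact_mod_cast lt_of_lt_of_le one_pos (le_max_right _ _)
    have e4 := le_of_mul_le_mul_right (e1.trans e2) e3
    linarith
  have hKr : (1 : ℝ) ≤ (K : ℝ) := by exact_mod_cast hK
  have hK0 : (0 : ℝ) < (K : ℝ) := by linarith
  set τ0 : ℝ := ε / (12 * (B ^ 2 + 1) * C₁ * C₂) with hτ0
  have hτp : 0 < τ0 := by rw [hτ0]; positivity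
  set δ : ℝ := ε * τ0 / (3 * C₁ * C₂) with hδ
  have hδp : 0 < δ := by rw [hδ]; positivity
  set L0 : ℝ := |Real.log 2 + Real.log (Cr / c₁)| + 1 with hL0
  have hL0p : 0 < L0 := by rw [hL0]; positivity
  have hsmall : ∀ η : ℝ, 0 < η → ∃ Qm : ℕ, ∀ q : ℕ, Qm ≤ q → Real.log q ≤ q * η := by
    intro η hη
    have e1 := (Real.isLittleO_log_id_atTop.comp_tendsto tendsto_natCast_atTop_atTop).def hη
    obtain ⟨n0, hn0⟩ := Filter.eventually_atTop.1 e1
    refine ⟨max n0 1, fun q hq => ?_⟩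
    have e2 := hn0 q ((le_max_left _ _).trans hq)
    simp only [Function.comp, id, Real.norm_eq_abs] at e2
    have e3 : |Real.log (q : ℝ)| = Real.log q := abs_of_nonneg
      (Real.log_nonneg (by exact_mod_cast (le_max_right _ _).trans hq))
    have e4 : |(q : ℝ)| = q := abs_of_nonneg (by positivity)
    rw [e3, e4] at e2
    linarith
  obtain ⟨Qa, hQa⟩ := hsmall (ε * τ0 / (3 * C₁ * L0)) (by positivity)
  obtain ⟨Qb, hQb⟩ := hsmall (c₂ * δ / (4 * CA)) (by positivity)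
  set J : ℝ := 16 * C₁ * C₂ / (δ * c₁ * c₂) with hJ
  set θ : ℝ := δ / 2 * c₁ * c₂ / K with hθ
  have hθp : 0 < θ := by rw [hθ]; positivity
  obtain ⟨Q, I, hQm, hQ2, hQJ, hQmono, hS⟩ := levels J (CA * C₁ / θ + 1) (Qp + Qa + Qb + Q₁ + 1)
  have hmono : Monotone Q := monotone_nat_of_le_succ hQmono
  have hprime : ∀ i, ∀ p ∈ PQ χ (Q i), p.Prime := fun i p hp => (mem_PQ hp).2.2
  choose Yr hYr using fun i => hR (PQ χ (Q i)) (hprime i)
  set M : ℝ := 2 + f + |Y₁| + ∑ i ∈ range I, |Yr i| with hM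
  have hf0 : (0 : ℝ) ≤ f := Nat.cast_nonneg f
  have hMf : (f : ℝ) ≤ M := by
    rw [hM]
    have e1 : 0 ≤ ∑ i ∈ range I, |Yr i| := Finset.sum_nonneg fun i _ => abs_nonneg _
    have e2 := abs_nonneg Y₁
    linarith
  have hM2 : 2 ≤ M := by
    rw [hM]
    have e1 : 0 ≤ ∑ i ∈ range I, |Yr i| := Finset.sum_nonneg fun i _ => abs_nonneg _
    have e2 := abs_nonneg Y₁
    linarith
  have hMY : Y₁ ≤ M := by
    rw [hM]
    have e1 : 0 ≤ ∑ i ∈ range I, |Yr i| := Finset.sum_nonneg fun i _ => abs_nonneg _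
    have e2 := le_abs_self Y₁
    linarith
  have hMr : ∀ i < I, Yr i ≤ M := by
    intro i hi
    rw [hM]
    have e1 : |Yr i| ≤ ∑ i ∈ range I, |Yr i| :=
      Finset.single_le_sum (f := fun i => |Yr i|) (fun i _ => abs_nonneg _) (Finset.mem_range.2 hi)
    have e2 := le_abs_self (Yr i)
    have e3 := abs_nonneg Y₁
    linarith
  refine ⟨Q I, ⌈(K : ℝ) * Q I * M⌉₊ + 1, ⌈(K : ℝ) * Q I * M⌉₊ + 1 + 1, fun N hN lab => ?_⟩
  set X₀ : ℕ := ⌈(K : ℝ) * Q I * M⌉₊ + 1 with hX₀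
  have hQr2 : ∀ i, (2 : ℝ) ≤ (Q i : ℝ) := fun i => by exact_mod_cast hQ2 i
  have hQr0 : ∀ i, (0 : ℝ) < (Q i : ℝ) := fun i => by linarith [hQr2 i]
  have hlq : ∀ i, 0 < Real.log (Q i : ℝ) := fun i => Real.log_pos (by linarith [hQr2 i])
  have hXM : ∀ i ≤ I, ∀ X ∈ Ioc X₀ N, M ≤ (X : ℝ) / (K * Q i) := by
    intro i hi X hX
    rw [Finset.mem_Ioc] at hX
    have e1 : (K : ℝ) * Q I * M ≤ X := by
      refine (Nat.le_ceil _).trans ?_
      exact_mod_cast (by omega : ⌈(K : ℝ) * Q I * M⌉₊ ≤ X)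
    have e2 : (Q i : ℝ) ≤ Q I := by exact_mod_cast hmono hi
    rw [le_div_iff₀ (mul_pos hK0 (hQr0 i))]
    have e3 : M * (K * Q i) ≤ M * (K * Q I) :=
      mul_le_mul_of_nonneg_left (mul_le_mul_of_nonneg_left e2 hK0.le) (by linarith)
    linarith
  have hXX : ∀ i, ∀ X ∈ Ioc X₀ N, (X : ℝ) / (K * Q i) ≤ X := by
    intro i X _
    refine div_le_self (by positivity) ?_
    have e1 := hQr2 i
    nlinarith
  set ℓ : ℝ := ∑ X ∈ Ioc X₀ N, 1 / (X : ℝ) with hℓ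
  have hℓ0 : 0 < ℓ := by
    refine Finset.sum_pos (fun X hX => ?_) ⟨N, Finset.mem_Ioc.2 ⟨by omega, le_rfl⟩⟩
    rw [Finset.mem_Ioc] at hX
    have : 0 < X := by omega
    positivity
  have hℓlog : ℓ ≤ Real.log N := ell_le X₀ N (by omega) (by omega)
  have hWb : ∀ i ≤ I, c₁ * ℓ / (K * Q i) ≤ WW t c K (Q i) X₀ N ∧
      WW t c K (Q i) X₀ N ≤ C₁ * ℓ / (K * Q i) := fun i hi =>
    WW_bounds hE K (Q i) X₀ N fun X hX => hMY.trans (hXM i hi X hX)
  have hPr : ∀ i, c₂ * Q i / Real.log (Q i) ≤ ((PQ χ (Q i)).card : ℝ) ∧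
      ((PQ χ (Q i)).card : ℝ) ≤ C₂ * Q i / Real.log (Q i) ∧
      c₂ * Q i ≤ ∑ p ∈ PQ χ (Q i), Real.log p ∧ ∑ p ∈ PQ χ (Q i), Real.log p ≤ C₂ * Q i :=
    fun i => hP (Q i) (by have := hQm i; omega)
  -- a good level
  have hgood : ∃ i < I, cE (Om t c K (Q i) X₀ N) wt (Dd lab) (fun _ => ()) -
      δ * ((PQ χ (Q i)).card : ℝ) * WW t c K (Q i) X₀ N ≤
        cE (Om t c K (Q i) X₀ N) wt (Dd lab) (Rr (PQ χ (Q i))) := by
    by_contra hcon
    push Not at hcon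
    have hstep : ∀ i < I, cE (Om t c K (Q (i + 1)) X₀ N) wt (Dd lab) (fun _ => ()) ≤
        cE (Om t c K (Q i) X₀ N) wt (Dd lab) (fun _ => ()) - θ * ℓ * (1 / Real.log (Q i)) := by
      intro i hi
      have hp1 : ∀ p ∈ PQ χ (Q i), 1 ≤ p := fun p hp => (hprime i p hp).one_le
      have hXq : ∀ X ∈ Ioc X₀ N, (X : ℝ) / (K * Q (i + 1)) ≤ (X : ℝ) / (K * Q i) := by
        intro X _
        have e2 : (Q i : ℝ) ≤ Q (i + 1) := by exact_mod_cast hQmono i
        have e3 := hQr0 i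
        gcongr
      have e1 := ce_le_add h1 (fun ω (_ : ω ∈ Om t c K (Q (i + 1)) X₀ N) => wt_nonneg ω) (Dd lab)
        (Rr (PQ χ (Q i)))
      have e2 := ce_Rr (t := t) (c := c) h1 K (Q (i + 1)) X₀ N (PQ χ (Q i)) hp1
      have e3 := step1 h1 h2 h5 lab K (Q i) (Q (i + 1)) X₀ N (PQ χ (Q i)) hp1
        (fun X hX => hMf.trans (hXM (i + 1) hi X hX)) hXq (hXX i)
      have e4 : cE (Om t c K (Q (i + 1)) X₀ N) wt (Tp lab K (Q i)) (fun _ => ()) ≤
          CA * WW t c K (Q i) X₀ N := by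
        rw [WW_eq]
        exact code_le h5 hCA0 hCA lab K (Q (i + 1)) X₀ N (fun X => (X : ℝ) / (K * Q i))
          (fun X hX => hMf.trans (hXM (i + 1) hi X hX)) hXq
      have e5 := hcon i hi
      have e6 : c₂ * Q i / Real.log (Q i) ≤ ((PQ χ (Q i)).card : ℝ) := (hPr i).1
      have e7 : 4 * CA / δ ≤ ((PQ χ (Q i)).card : ℝ) := by
        refine le_trans ?_ e6
        have e8 := hQb (Q i) (by have := hQm i; omega)
        rw [div_le_div_iff₀ hδp (hlq i)]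
        have e9 := mul_le_mul_of_nonneg_left e8 (by positivity : (0 : ℝ) ≤ 4 * CA)
        have e10 : 4 * CA * ((Q i : ℝ) * (c₂ * δ / (4 * CA))) = c₂ * Q i * δ := by
          field_simp
        linarith
      exact decr (W' := WW t c K (Q (i + 1)) X₀ N) (W := WW t c K (Q i) X₀ N)
        (cD := cE (Om t c K (Q i) X₀ N) wt (Dd lab) (Rr (PQ χ (Q i))))
        (sl := ∑ p ∈ PQ χ (Q i), Real.log p) (cP := ((PQ χ (Q i)).card : ℝ)) (q := (Q i : ℝ))
        (q' := (Q (i + 1) : ℝ)) (CA := CA) (C₁ := C₁) (C₂ := C₂) (J := J)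
        hKr (hQr0 i) (hQr0 (i + 1)) (hlq i) hδp hc₁ hC₁ hc₂ hC₂ hℓ0.le
        (Finset.sum_nonneg fun p hp => Real.log_nonneg (by exact_mod_cast hp1 p hp))
        (WW_nonneg _ _ _ _) (by linarith) e5 (hWb (i + 1) hi).2 (hWb i hi.le).1 (hPr i).2.2.2
        e6 hJ (hQJ i) e7
    have hall : ∀ i ≤ I, cE (Om t c K (Q i) X₀ N) wt (Dd lab) (fun _ => ()) ≤
        cE (Om t c K (Q 0) X₀ N) wt (Dd lab) (fun _ => ()) -
          θ * ℓ * ∑ j ∈ range i, 1 / Real.log (Q j) := by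
      intro i
      induction i with
      | zero => intro _; simp
      | succ i ih =>
        intro hi
        have e1 := ih (by omega)
        have e2 := hstep i (by omega)
        rw [Finset.sum_range_succ, mul_add]
        linarith
    have e1 := hall I le_rfl
    have e2 := ce_nonneg h1 (fun ω (_ : ω ∈ Om t c K (Q I) X₀ N) => wt_nonneg ω) (Dd lab)
      (fun _ => ())
    have e3 : cE (Om t c K (Q 0) X₀ N) wt (Dd lab) (fun _ => ()) ≤ CA * (C₁ * ℓ) := by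
      refine (code_le h5 hCA0 hCA lab K (Q 0) X₀ N (fun X => (X : ℝ))
        (fun X hX => hMf.trans (hXM 0 (Nat.zero_le _) X hX)) (hXX 0)).trans ?_
      refine mul_le_mul_of_nonneg_left ?_ hCA0.le
      rw [hℓ, Finset.mul_sum]
      refine Finset.sum_le_sum fun X hX => ?_
      have e4 : Y₁ ≤ (X : ℝ) := hMY.trans ((hXM 0 (Nat.zero_le _) X hX).trans (hXX 0 X hX))
      have e5 := (hE X e4).2
      have hX0 : (0 : ℝ) < (X : ℝ) := by
        rw [Finset.mem_Ioc] at hX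
        have : 0 < X := by omega
        positivity
      calc 1 / (X : ℝ) ^ 2 * ((edge t c (X : ℝ)).card : ℝ) ≤ 1 / (X : ℝ) ^ 2 * (C₁ * X) :=
            mul_le_mul_of_nonneg_left e5 (by positivity)
        _ = C₁ * (1 / (X : ℝ)) := by field_simp
    have e4 : θ * ℓ * (CA * C₁ / θ + 1) ≤ θ * ℓ * ∑ j ∈ range I, 1 / Real.log (Q j) :=
      mul_le_mul_of_nonneg_left hS (by positivity)
    have e5 : θ * ℓ * (CA * C₁ / θ + 1) = CA * (C₁ * ℓ) + θ * ℓ := by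
      field_simp
    have e6 : 0 < θ * ℓ := by positivity
    linarith
  obtain ⟨i, hi, hgi⟩ := hgood
  refine ⟨Q i, by have := hQm i; omega, hmono hi.le, fun ζ hζ => ?_⟩
  have hlqi := hlq i
  have hmain := good_level h1 h4 lab K (Q i) X₀ N hK (by have := hQ2 i; omega) c₁ Cr
    (δ * ((PQ χ (Q i)).card : ℝ) * WW t c K (Q i) X₀ N) (τ0 / Real.log (Q i)) B hc₁ hCr
    (by positivity) hgi
    (fun X hX y => by
      have e1 := hYr i ((X : ℝ) / (K * Q i)) ((hMr i hi).trans (hXM i hi.le X hX)) y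
      convert e1 using 3)
    (hWb i hi.le).1 ζ hζ
  refine hmain.trans ?_
  have hfin := fin_est (W := WW t c K (Q i) X₀ N) (ℓ := ℓ) (q := (Q i : ℝ)) (lq := Real.log (Q i))
    (cP := ((PQ χ (Q i)).card : ℝ)) (s2 := ∑ p ∈ PQ χ (Q i), Real.log p ^ 2)
    (L := Real.log 2 + Real.log (Cr / c₁)) (L0 := L0) (B := B) (ε := ε) (τ0 := τ0) (δ := δ)
    (C₁ := C₁) (C₂ := C₂) (hQr0 i) (hlq i) hε hC₁ hC₂ hL0p
    (by rw [hL0]; linarith [le_abs_self (Real.log 2 + Real.log (Cr / c₁))])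
    (WW_nonneg _ _ _ _) hℓ0.le
    (by
      have e1 := (hWb i hi.le).2
      rw [le_div_iff₀ (mul_pos hK0 (hQr0 i))] at e1
      have e2 := WW_nonneg (t := t) (c := c) K (Q i) X₀ N
      have e3 := hQr0 i
      have e4 : WW t c K (Q i) X₀ N * (Q i : ℝ) ≤ WW t c K (Q i) X₀ N * (K * Q i) :=
        mul_le_mul_of_nonneg_left (by nlinarith) e2
      linarith)
    (by
      have e1 := (hPr i).2.1
      rw [le_div_iff₀ (hlq i)] at e1
      linarith)
    (by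
      have e1 : ∀ p ∈ PQ χ (Q i), Real.log (p : ℝ) ^ 2 ≤ 2 * Real.log (Q i) * Real.log p := by
        intro p hp
        obtain ⟨e2, e3, e4⟩ := mem_PQ hp
        have e5 : 0 ≤ Real.log (p : ℝ) := Real.log_nonneg (by exact_mod_cast e4.one_le)
        have e6 : Real.log (p : ℝ) ≤ 2 * Real.log (Q i) := by
          have e7 : Real.log (p : ℝ) ≤ Real.log ((Q i : ℝ) ^ 2) := by
            refine Real.log_le_log (by exact_mod_cast e4.pos) ?_
            have e8 : (p : ℝ) ≤ 2 * (Q i : ℝ) := by exact_mod_cast e3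
            nlinarith [hQr2 i]
          rw [Real.log_pow] at e7
          push_cast at e7
          exact e7
        rw [sq]
        exact mul_le_mul_of_nonneg_right e6 e5
      calc ∑ p ∈ PQ χ (Q i), Real.log (p : ℝ) ^ 2
          ≤ ∑ p ∈ PQ χ (Q i), 2 * Real.log (Q i) * Real.log p := Finset.sum_le_sum e1
        _ = 2 * Real.log (Q i) * ∑ p ∈ PQ χ (Q i), Real.log p := by rw [Finset.mul_sum]
        _ ≤ 2 * Real.log (Q i) * (C₂ * Q i) :=
          mul_le_mul_of_nonneg_left (hPr i).2.2.2 (by positivity))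
    hτ0 hδ (hQa (Q i) (by have := hQm i; omega))
  refine hfin.trans ?_
  exact mul_le_mul_of_nonneg_left hℓlog hε.le

end Pool.Agent.N912.EP.W143EG
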