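import Pool.Agent.N912.EP.W349EGPw
import Pool.Agent.W899.EC.Ecnt
import Pool.Agent.Helper923.PNT

/-!
Project EG (helper78), part CNT: `S_ECNT t c`, `S_RESC t c`, `S_PCNT χ`: the number of Farey edges
and of primes. Port of `W899/EC/Ecnt` and `W899/EC/Pcnt`.
-/

set_option autoImplicit false

namespace Pool.Agent.N912.EP.W554EG

open Finset Filter Topology
open Pool.Agent.W78.GA
open Pool.Agent.W78.EC (rs SL)
open Pool.Agent.N912.EP.W78EG

variable {t c : ℤ} {f : ℕ} {χ : PS f}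

lemma hD_of (hF : Fd t c f χ) : t ^ 2 < 4 * c := by
  have h1 := hF.disc
  have h2 : (3 : ℤ) ≤ f := by exact_mod_cast hF.three
  linarith

lemma edge_subset (Y : ℝ) : edge t c Y ⊆ dedge t c Y := by
  classical
  intro e he
  unfold edge at he
  unfold dedge
  rw [mem_filter] at he ⊢
  exact ⟨he.1, he.2.1⟩

/-- every primitive vector is the first member of an edge -/
lemma exists_edge (hD : t ^ 2 < 4 * c) (ht : t = 0 ∨ t = 1) {Y : ℝ} (hY : 2 * (c : ℝ) ≤ Y)
    {v : Qd t c} (hv : v ∈ pball t c Y) : ∃ e ∈ edge t c Y, e.1 = v := by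
  classical
  obtain ⟨hp, hn⟩ := (mem_pball hD).1 hv
  obtain ⟨u₀, hu₀⟩ := Pool.Agent.W803.GA.exists_dt_one hp
  have hc0 : 0 < c := by nlinarith [sq_nonneg t]
  have ht0 : 0 ≤ t := by rcases ht with h | h <;> omega
  have ht1 : t ≤ 1 := by rcases ht with h | h <;> omega
  have hn1 : (1 : ℤ) ≤ (nm v : ℤ) := by
    exact_mod_cast (one_le_nm hD).2 (prim_ne_zero hp)
  have hn1R : (1 : ℝ) ≤ (nm v : ℝ) := by exact_mod_cast hn1
  set n : ℤ := (nm v : ℤ) with hndef
  set i : ℤ := ip v u₀ with hi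
  have hnR : ((n : ℤ) : ℝ) = (nm v : ℝ) := by rw [hndef]; norm_cast
  have hdt : ∀ k : ℤ, dt v (u₀ + (k : Qd t c) * v) = 1 := by
    intro k
    have : dt v (u₀ + (k : Qd t c) * v) = dt v u₀ := by unfold dt; simp; ring
    rw [this, hu₀]
  have hnm : ∀ k : ℤ, n * (nm (u₀ + (k : Qd t c) * v) : ℤ) =
      (i + k * n) ^ 2 + t * (i + k * n) + c := by
    intro k
    have h1 := ip_dt hD v (u₀ + (k : Qd t c) * v)
    rw [hdt k] at h1
    have h2 : ip v (u₀ + (k : Qd t c) * v) = i + k * n := by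
      rw [hi, hndef, nm_cast hD]
      unfold ip
      simp
      ring
    rw [h2] at h1
    rw [hndef, h1]
    ring
  have hnmR : ∀ k : ℤ, (nm v : ℝ) * (nm (u₀ + (k : Qd t c) * v) : ℝ) =
      ((i + k * n : ℤ) : ℝ) ^ 2 + t * ((i + k * n : ℤ) : ℝ) + c := by
    intro k
    have := hnm k
    rw [← hnR]
    exact_mod_cast this
  have ht0R : (0 : ℝ) ≤ t := by exact_mod_cast ht0
  have ht1R : (t : ℝ) ≤ 1 := by exact_mod_cast ht1
  have hc1R : (1 : ℝ) ≤ c := by exact_mod_cast hc0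
  obtain ⟨k, hk, hmax⟩ := Int.exists_greatest_of_bdd
    (P := fun k : ℤ => (nm (u₀ + (k : Qd t c) * v) : ℝ) ≤ Y) (by
      refine ⟨⌈Y * nm v + 1 + |(i : ℝ)|⌉, fun k hk => ?_⟩
      have h1 := hnmR k
      have h2 : ((i + k * n : ℤ) : ℝ) ^ 2 + t * ((i + k * n : ℤ) : ℝ) + c ≤ Y * nm v := by
        rw [← h1, mul_comm]
        exact mul_le_mul_of_nonneg_right hk (by linarith)
      have h3 : ((i + k * n : ℤ) : ℝ) ≤ Y * nm v + 1 := by
        rcases le_or_gt ((i + k * n : ℤ) : ℝ) 0 with hx | hx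
        · have h0 : (0 : ℝ) ≤ Y * nm v := by
            have : (0 : ℝ) ≤ Y := (Nat.cast_nonneg _).trans hk
            positivity
          linarith
        · nlinarith [sq_nonneg (((i + k * n : ℤ) : ℝ) - 1), mul_nonneg ht0R hx.le]
      push_cast at h3
      rw [hnR] at h3
      have h4 : (k : ℝ) ≤ Y * nm v + 1 + |(i : ℝ)| := by
        rcases le_or_gt (k : ℝ) 0 with h | h
        · have : (0 : ℝ) ≤ Y * nm v := by
            have : (0 : ℝ) ≤ Y := (Nat.cast_nonneg _).trans hk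
            positivity
          linarith [abs_nonneg (i : ℝ)]
        · have : (k : ℝ) ≤ k * nm v := by nlinarith
          have h5 := neg_abs_le (i : ℝ)
          linarith
      have h6 := h4.trans (Int.le_ceil _)
      exact_mod_cast h6) (by
      refine ⟨-(i / n), ?_⟩
      have h1 := hnm (-(i / n))
      have h2 : i + -(i / n) * n = i % n := by
        have := Int.emod_add_mul_ediv i n
        linarith
      rw [h2] at h1
      have h3 : 0 ≤ i % n := Int.emod_nonneg _ (by omega)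
      have h4 : i % n < n := Int.emod_lt_of_pos _ (by omega)
      have h7 : t * (i % n) ≤ i % n := by nlinarith
      have h8 : n * (nm (u₀ + ((-(i / n) : ℤ) : Qd t c) * v) : ℤ) ≤ n ^ 2 - n + c := by
        rw [h1]; nlinarith
      rcases le_or_gt c n with hcn | hcn
      · have h5 : (nm (u₀ + ((-(i / n) : ℤ) : Qd t c) * v) : ℤ) ≤ n := by
          by_contra hlt
          push Not at hlt
          nlinarith
        have h6 : (nm (u₀ + ((-(i / n) : ℤ) : Qd t c) * v) : ℝ) ≤ (n : ℝ) := by exact_mod_cast h5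
        rw [hnR] at h6
        exact h6.trans hn
      · have h5 : (nm (u₀ + ((-(i / n) : ℤ) : Qd t c) * v) : ℤ) ≤ 2 * c := by
          by_contra hlt
          push Not at hlt
          nlinarith
        have h6 : (nm (u₀ + ((-(i / n) : ℤ) : Qd t c) * v) : ℝ) ≤ 2 * (c : ℝ) := by
          exact_mod_cast h5
        exact h6.trans hY)
  refine ⟨(v, u₀ + (k : Qd t c) * v), ?_, rfl⟩
  unfold edge
  rw [mem_filter, mem_product]
  refine ⟨⟨hv, (mem_pball hD).2 ⟨Pool.Agent.W803.GA.prim_of_dt (hdt k), hk⟩⟩, hdt k, ?_⟩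
  by_contra hlt
  push Not at hlt
  have e : v + (u₀ + (k : Qd t c) * v) = u₀ + ((k + 1 : ℤ) : Qd t c) * v := by push_cast; ring
  simp only at hlt
  rw [e] at hlt
  have := hmax (k + 1) hlt
  omega

lemma pball_le_edge (hD : t ^ 2 < 4 * c) (ht : t = 0 ∨ t = 1) {Y : ℝ} (hY : 2 * (c : ℝ) ≤ Y) :
    (pball t c Y).card ≤ (edge t c Y).card := by
  classical
  have h : pball t c Y ⊆ (edge t c Y).image Prod.fst := by
    intro v hv
    obtain ⟨e, he, hev⟩ := exists_edge hD ht hY hv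
    exact mem_image.2 ⟨e, he, hev⟩
  exact (card_le_card h).trans card_image_le

lemma pball_lower (hD : t ^ 2 < 4 * c) : ∃ c₁ Y₀ : ℝ, 0 < c₁ ∧ ∀ Y : ℝ, Y₀ ≤ Y →
    c₁ * Y ≤ ((pball t c Y).card : ℝ) := by
  obtain ⟨c₀, hc₀, Y₀, hY₀⟩ := Pool.Agent.W240.GA.A0.a0_of hD (Pool.Agent.W45.GA.lat hD)
  have he := Real.exp_pos 1
  refine ⟨c₀ / Real.exp 1 ^ 2, max 1 (Real.exp 1 * Y₀), by positivity, ?_⟩
  intro Y hY
  have hY1 : 1 ≤ Y := (le_max_left _ _).trans hY
  have hYY : Real.exp 1 * Y₀ ≤ Y := (le_max_right _ _).trans hY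
  have h1 := hY₀ (Y / Real.exp 1) (by rw [le_div_iff₀ he]; linarith)
  rw [mul_div_cancel₀ Y he.ne'] at h1
  have h2 : ∀ z ∈ pball t c Y, bg (Y / Real.exp 1) z ≤ Real.exp 1 ^ 2 / Y := by
    intro z hz
    obtain ⟨hp, hn⟩ := (mem_pball hD).1 hz
    have hn0 : (0 : ℝ) < nm z := nm_posR hD (prim_ne_zero hp)
    unfold bg
    rcases eq_or_lt_of_le (Pool.Agent.W240.GA.A0.w_nonneg
      (Real.log (nm z) - Real.log (Y / Real.exp 1))) with h | h
    · rw [← h]
      simp
      positivity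
    · have h3 : |Real.log (nm z) - Real.log (Y / Real.exp 1)| < 1 := by
        by_contra hge
        push Not at hge
        unfold Pool.Agent.H376R2.MR.w at h
        rw [max_eq_left (by linarith)] at h
        exact lt_irrefl _ h
      rw [Real.log_div (by positivity) he.ne', Real.log_exp, abs_lt] at h3
      have h4 : Real.log Y - 2 ≤ Real.log (nm z) := by linarith [h3.1]
      have h5 : Y / Real.exp 1 ^ 2 ≤ nm z := by
        have h6 : Real.log (Y / Real.exp 1 ^ 2) = Real.log Y - 2 := by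
          rw [Real.log_div (by positivity) (by positivity), Real.log_pow, Real.log_exp]
          norm_num
        rw [← h6] at h4
        exact (Real.log_le_log_iff (by positivity) hn0).1 h4
      have h7 := Pool.Agent.W240.GA.A0.w_le_one (Real.log (nm z) - Real.log (Y / Real.exp 1))
      rw [div_le_div_iff₀ hn0 (by positivity)]
      rw [div_le_iff₀ (by positivity)] at h5
      nlinarith
  have h3 : c₀ ≤ ((pball t c Y).card : ℝ) * (Real.exp 1 ^ 2 / Y) := by
    refine h1.trans ?_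
    rw [← nsmul_eq_mul]
    exact Finset.sum_le_card_nsmul _ _ _ h2
  rw [mul_div_assoc', le_div_iff₀ (by positivity)] at h3
  rw [div_mul_eq_mul_div, div_le_iff₀ (by positivity)]
  exact h3

/-- ECNT -/
theorem ecnt (hF : Fd t c f χ) : S_ECNT t c := by
  classical
  have hD := hD_of hF
  obtain ⟨c₁, Y₀, hc, hlow⟩ := pball_lower hD
  obtain ⟨C, hC, hE⟩ := Pool.Agent.W591.GA.equ_of hD
  obtain ⟨X₀, hX₀⟩ := hE 0
  refine ⟨c₁, C, max (2 * (c : ℝ)) (max Y₀ X₀), hc, fun Y hY => ⟨?_, ?_⟩⟩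
  · refine (hlow Y (((le_max_left _ _).trans (le_max_right _ _)).trans hY)).trans ?_
    exact_mod_cast pball_le_edge hD hF.tt ((le_max_left _ _).trans hY)
  · have h := hX₀ Y 1 0 0 0 0 (((le_max_right _ _).trans (le_max_right _ _)).trans hY) le_rfl
      (by simp)
    have e : (dedge t c Y).filter (fun e => ((1 : ℕ) : ℤ) ∣ e.1.re - 0 ∧ ((1 : ℕ) : ℤ) ∣ e.1.im - 0 ∧
      ((1 : ℕ) : ℤ) ∣ e.2.re - 0 ∧ ((1 : ℕ) : ℤ) ∣ e.2.im - 0) = dedge t c Y := by
      apply Finset.filter_true_of_mem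
      intro e _
      simp
    rw [e] at h
    simp only [Nat.cast_one, one_pow, div_one] at h
    refine le_trans ?_ h
    exact_mod_cast card_le_card (edge_subset Y)

/-- RESC -/
theorem resc (hD : t ^ 2 < 4 * c) : S_RESC t c := by
  classical
  obtain ⟨C, hC, hE⟩ := Pool.Agent.W591.GA.equ_of hD
  obtain ⟨X₀, hX₀⟩ := hE 1
  refine ⟨C, hC, fun P hP => ?_⟩
  set M : ℕ := ∏ p ∈ P, p with hM
  have hM1 : 1 ≤ M := by
    rw [hM]
    exact Nat.one_le_iff_ne_zero.2 (Finset.prod_ne_zero_iff.2 fun p hp => (hP p hp).ne_zero)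
  have hprod : ∏ p ∈ P, ((SL p).card : ℝ) ≤ (M : ℝ) ^ 3 := by
    rw [hM]
    push_cast
    rw [← Finset.prod_pow]
    apply Finset.prod_le_prod
    · intro p _
      exact Nat.cast_nonneg _
    · intro p hp
      exact_mod_cast Pool.Agent.W899.EC.SL_card_le (hP p hp)
  have hprod0 : 0 < ∏ p ∈ P, ((SL p).card : ℝ) := by
    apply Finset.prod_pos
    intro p hp
    exact_mod_cast Pool.Agent.W899.EC.SL_pos (hP p hp)
  refine ⟨max X₀ (Real.exp M), ?_⟩
  intro Y hY y
  have hYX : X₀ ≤ Y := (le_max_left _ _).trans hY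
  have hYM : Real.exp M ≤ Y := (le_max_right _ _).trans hY
  have hY0 : 0 < Y := lt_of_lt_of_le (Real.exp_pos _) hYM
  have hlog : (M : ℝ) ≤ Real.log Y ^ 1 := by
    rw [pow_one, Real.le_log_iff_exp_le hY0]
    exact hYM
  rcases Finset.eq_empty_or_nonempty ((edge t c Y).filter (fun e => ∀ p ∈ P, res p e = y p))
    with h0 | ⟨e₀, he₀⟩
  · have h1 : (((edge t c Y).filter (fun e => ∀ p ∈ P, res p e = y p)).card : ℝ) = 0 := by
      rw [h0, card_empty, Nat.cast_zero]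
    have h2 : 0 ≤ C * Y / ∏ p ∈ P, ((SL p).card : ℝ) :=
      div_nonneg (mul_nonneg hC.le hY0.le) hprod0.le
    exact h1.le.trans h2
  · have h := hX₀ Y M e₀.1.re e₀.1.im e₀.2.re e₀.2.im hYX hM1 hlog
    have hMM : C * Y / (M : ℝ) ^ 3 ≤ C * Y / ∏ p ∈ P, ((SL p).card : ℝ) := by
      apply div_le_div_of_nonneg_left (by positivity) hprod0 hprod
    refine le_trans ?_ (h.trans hMM)
    rw [mem_filter] at he₀
    have hsub : (edge t c Y).filter (fun e => ∀ p ∈ P, res p e = y p) ⊆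
        (dedge t c Y).filter (fun e => (M : ℤ) ∣ e.1.re - e₀.1.re ∧ (M : ℤ) ∣ e.1.im - e₀.1.im ∧
      (M : ℤ) ∣ e.2.re - e₀.2.re ∧ (M : ℤ) ∣ e.2.im - e₀.2.im) := by
      intro e he
      rw [mem_filter] at he ⊢
      refine ⟨edge_subset Y he.1, ?_⟩
      have hpp : ∀ p ∈ P, (p : ℤ) ∣ e.1.re - e₀.1.re ∧ (p : ℤ) ∣ e.1.im - e₀.1.im ∧
          (p : ℤ) ∣ e.2.re - e₀.2.re ∧ (p : ℤ) ∣ e.2.im - e₀.2.im := by
        intro p hp
        have h1 : res p e = res p e₀ := (he.2 p hp).trans (he₀.2 p hp).symm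
        unfold res at h1
        simp only [Prod.mk.injEq] at h1
        have hp0 := (hP p hp).pos
        exact ⟨Pool.Agent.W899.EC.rs_eq_iff hp0 h1.1, Pool.Agent.W899.EC.rs_eq_iff hp0 h1.2.1,
          Pool.Agent.W899.EC.rs_eq_iff hp0 h1.2.2.1, Pool.Agent.W899.EC.rs_eq_iff hp0 h1.2.2.2⟩
      have hdvd : ∀ x : ℤ, (∀ p ∈ P, (p : ℤ) ∣ x) → (M : ℤ) ∣ x := by
        intro x hx
        rw [Int.natCast_dvd]
        rw [hM]
        apply Finset.prod_primes_dvd
        · intro p hp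
          exact (hP p hp).prime
        · intro p hp
          exact Int.natCast_dvd.1 (hx p hp)
      exact ⟨hdvd _ fun p hp => (hpp p hp).1, hdvd _ fun p hp => (hpp p hp).2.1,
        hdvd _ fun p hp => (hpp p hp).2.2.1, hdvd _ fun p hp => (hpp p hp).2.2.2⟩
    exact_mod_cast card_le_card hsub

/-! ### Primes -/

lemma mem_PQ {Q p : ℕ} : p ∈ PQ χ Q ↔ (Q < p ∧ p ≤ 2 * Q) ∧ p.Prime ∧ χ p := by
  classical
  unfold PQ
  rw [mem_filter, mem_Ioc]

lemma sum_log_le (Q : ℕ) : ∑ p ∈ PQ χ Q, Real.log p ≤ Real.log 4 * (2 * Q) := by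
  have h := Chebyshev.theta_le_log4_mul_x (x := ((2 * Q : ℕ) : ℝ)) (Nat.cast_nonneg _)
  unfold Chebyshev.theta at h
  rw [Nat.floor_natCast] at h
  push_cast at h
  refine le_trans ?_ h
  apply Finset.sum_le_sum_of_subset_of_nonneg
  · intro p hp
    rw [mem_PQ] at hp
    rw [mem_filter, mem_Ioc]
    exact ⟨⟨by omega, hp.1.2⟩, hp.2.1⟩
  · intro p hp _
    rw [mem_filter] at hp
    exact Real.log_nonneg (by exact_mod_cast hp.2.one_lt.le)

/-- PCNT -/
theorem pcnt (hF : Fd t c f χ) : S_PCNT χ := by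
  obtain ⟨ρ, hρ, hd⟩ := hF.dens
  obtain ⟨Q₀, hQ₀1, hT⟩ := Pool.Agent.N912.EP.W349EG.T_as0 (ρ := ρ) hd (ρ / 2) (by positivity)
  have key : ∀ Q : ℕ, Q₀ ≤ Q → ρ / 2 * Q ≤ ∑ p ∈ PQ χ Q, Real.log p := by
    intro Q hQ
    have h1 := hT Q hQ (2 * Q) (by
      have : (0 : ℝ) ≤ Q := Nat.cast_nonneg Q
      linarith) le_rfl
    have e : (PQ χ Q).filter (fun p : ℕ => (p : ℝ) ≤ 2 * Q) = PQ χ Q := by
      refine filter_true_of_mem fun p hp => ?_
      exact_mod_cast (mem_PQ.1 hp).1.2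
    rw [e] at h1
    have h2 := (abs_le.1 h1).1
    linarith
  refine ⟨ρ / 4, 4 * Real.log 4, by positivity, max 2 Q₀, ?_⟩
  intro Q hQ
  have hQ2 : 2 ≤ Q := (le_max_left _ _).trans hQ
  have hQ0 : (0 : ℝ) < Q := by exact_mod_cast (by omega : 0 < Q)
  have hQ2' : (2 : ℝ) ≤ Q := by exact_mod_cast hQ2
  have hlogQ : 0 < Real.log Q := Real.log_pos (by linarith)
  have h1 := key Q ((le_max_right _ _).trans hQ)
  have h2 := sum_log_le (χ := χ) Q
  have hlog4 : 0 < Real.log 4 := Real.log_pos (by norm_num)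
  have hηQ : 0 < ρ * Q := by positivity
  -- comparison of the sum and the cardinality
  have h3 : ((PQ χ Q).card : ℝ) * Real.log Q ≤ ∑ p ∈ PQ χ Q, Real.log p := by
    rw [← nsmul_eq_mul]
    apply Finset.card_nsmul_le_sum
    intro p hp
    rw [mem_PQ] at hp
    apply Real.log_le_log hQ0
    exact_mod_cast hp.1.1.le
  have h4 : ∑ p ∈ PQ χ Q, Real.log p ≤ ((PQ χ Q).card : ℝ) * (2 * Real.log Q) := by
    rw [← nsmul_eq_mul]
    apply Finset.sum_le_card_nsmul
    intro p hp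
    rw [mem_PQ] at hp
    have h5 : Real.log p ≤ Real.log (2 * Q) := by
      apply Real.log_le_log
      · exact_mod_cast hp.2.1.pos
      · exact_mod_cast hp.1.2
    have h6 : Real.log (2 * Q) = Real.log 2 + Real.log Q := Real.log_mul (by norm_num) hQ0.ne'
    have h7 : Real.log 2 ≤ Real.log Q := Real.log_le_log (by norm_num) hQ2'
    linarith
  refine ⟨?_, ?_, by linarith, by linarith⟩
  · rw [div_le_iff₀ hlogQ]
    linarith
  · rw [le_div_iff₀ hlogQ]
    linarith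

end Pool.Agent.N912.EP.W554EG
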