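import Pool.Agent.N912.EP.W78EGDefs
import Pool.Agent.W978.EX.Dilx

/-!
Project EG (helper78), task EG-DILX: dilation invariance of the logarithmic average in `Qd t c`;
port of `W78/EC/Dil2` and `W978/EX/Dilx`
-/

set_option autoImplicit false

namespace Pool.Agent.N912.EP.W74EG

open Finset Filter
open Pool.Agent.H376R2.MR
open Pool.Agent.W78.GA (Qd nm prim dt ip ball pball dedge mem_pball prim_ne_zero one_le_nm)
open Pool.Agent.W64.EC (HH delta abel min_sum sum_inv_sq)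
open Pool.Agent.N912.EP.W78EG

variable {t c : ℤ}

open scoped Classical in
theorem mem_dedge (hD : t ^ 2 < 4 * c) {X : ℝ} {e : Qd t c × Qd t c} : e ∈ dedge t c X ↔
    (prim e.1 ∧ (nm e.1 : ℝ) ≤ X) ∧ (prim e.2 ∧ (nm e.2 : ℝ) ≤ X) ∧ dt e.1 e.2 = 1 := by
  unfold dedge
  rw [mem_filter, mem_product, mem_pball hD, mem_pball hD]
  tauto

open scoped Classical in
/-- the number of pairs of determinant `1` -/
theorem dedge_card (hD : t ^ 2 < 4 * c) {X : ℝ} (hX : 0 ≤ X) :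
    ((dedge t c X).card : ℝ) ≤ 144 * c * X := by
  have h1 : (dedge t c X).card =
      ∑ v ∈ pball t c X, ((dedge t c X).filter (fun e => e.1 = v)).card := by
    refine card_eq_sum_card_fiberwise fun e he => ?_
    rw [mem_coe, mem_pball hD]
    exact ((mem_dedge hD).mp he).1
  have h2 : ∀ v ∈ pball t c X, (((dedge t c X).filter (fun e => e.1 = v)).card : ℝ) ≤
      3 * (Real.sqrt X * (1 / Real.sqrt (nm v))) := by
    intro v hv
    rw [mem_pball hD] at hv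
    have h3 := Pool.Agent.W29.GA.nbr_card hD 1 hv.1 hv.2
    have h4 : ((dedge t c X).filter (fun e => e.1 = v)).card ≤
        (Pool.Agent.W29.GA.nbr t c 1 X v).card := by
      refine card_le_card_of_injOn Prod.snd ?_ ?_
      · intro e he
        rw [mem_coe, mem_filter] at he
        obtain ⟨he1, rfl⟩ := he
        rw [mem_dedge hD] at he1
        rw [mem_coe, Pool.Agent.W29.GA.nbr, mem_filter, mem_pball hD]
        exact ⟨he1.2.1, he1.2.2⟩
      · intro e he e' he' h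
        rw [mem_coe, mem_filter] at he he'
        exact Prod.ext (he.2.trans he'.2.symm) h
    rw [Real.sqrt_div hX] at h3
    have h5 : (((dedge t c X).filter (fun e => e.1 = v)).card : ℝ) ≤
        ((Pool.Agent.W29.GA.nbr t c 1 X v).card : ℝ) := by exact_mod_cast h4
    rw [mul_one_div]
    exact h5.trans h3
  rw [h1]
  push_cast
  refine (sum_le_sum h2).trans ?_
  rw [← mul_sum, ← mul_sum]
  have h6 := Pool.Agent.W29.GA.sum_inv_sqrt hD X (pball t c X) (fun z hz => by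
    rw [mem_pball hD] at hz
    exact ⟨prim_ne_zero hz.1, hz.2⟩)
  have h7 : Real.sqrt X * (48 * (c : ℝ) * Real.sqrt X) = 48 * c * X := by
    have := Real.mul_self_sqrt hX
    calc Real.sqrt X * (48 * (c : ℝ) * Real.sqrt X)
        = 48 * c * (Real.sqrt X * Real.sqrt X) := by ring
      _ = 48 * c * X := by rw [this]
  have h8 := mul_le_mul_of_nonneg_left h6 (Real.sqrt_nonneg X)
  rw [h7] at h8
  linarith

/-- condition on the norms -/
def cnd (s₁ s₂ s₃ s₄ : ℝ) (e : Qd t c × Qd t c) (x : ℝ) : Prop :=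
  s₁ * x < (nm e.1 : ℝ) ∧ (nm e.1 : ℝ) ≤ s₂ * x ∧ s₃ * x < (nm e.2 : ℝ) ∧ (nm e.2 : ℝ) ≤ s₄ * x

theorem cnd_iff {s₁ s₂ s₃ s₄ : ℝ} (h1 : 0 < s₁) (h2 : 0 < s₂) (h3 : 0 < s₃) (h4 : 0 < s₄)
    (e : Qd t c × Qd t c) (x : ℝ) : cnd s₁ s₂ s₃ s₄ e x ↔
      max ((nm e.1 : ℝ) / s₂) ((nm e.2 : ℝ) / s₄) ≤ x ∧
        ¬ min ((nm e.1 : ℝ) / s₁) ((nm e.2 : ℝ) / s₃) ≤ x := by
  unfold cnd
  rw [max_le_iff, min_le_iff, div_le_iff₀ h2, div_le_iff₀ h4, div_le_iff₀ h1, div_le_iff₀ h3,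
    mul_comm s₁ x, mul_comm s₂ x, mul_comm s₃ x, mul_comm s₄ x]
  push Not
  tauto

open scoped Classical in
/-- the contribution of one pair -/
theorem one_pair {s₁ s₂ s₃ s₄ : ℝ} (h1 : 0 < s₁) (h12 : s₁ < s₂) (h2 : s₂ ≤ 1) (h3 : 0 < s₃)
    (h34 : s₃ < s₄) (h4 : s₄ ≤ 1) {p N : ℕ} (hp : 1 ≤ p) (hN : 1 ≤ N) (e : Qd t c × Qd t c)
    (he : 1 ≤ max (nm e.1) (nm e.2)) :
    |∑ X ∈ Icc 1 N, (p : ℝ) / (X : ℝ) ^ 2 * (if cnd s₁ s₂ s₃ s₄ e ((X : ℝ) / p) then 1 else 0) -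
      ∑ X ∈ Icc 1 N, 1 / (X : ℝ) ^ 2 * (if cnd s₁ s₂ s₃ s₄ e X then 1 else 0)| ≤
      2 * (min (1 / ((max (nm e.1) (nm e.2) : ℕ) : ℝ)) ((p : ℝ) / N) +
        2 / ((max (nm e.1) (nm e.2) : ℕ) : ℝ) ^ 2) := by
  have hs2 : 0 < s₂ := h1.trans h12
  have hs4 : 0 < s₄ := h3.trans h34
  have hp0 : (0 : ℝ) < p := by exact_mod_cast hp
  have hN0 : (0 : ℝ) < N := by exact_mod_cast hN
  set m : ℝ := ((max (nm e.1) (nm e.2) : ℕ) : ℝ) with hm
  have hm1 : 1 ≤ m := by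
    rw [hm]
    exact_mod_cast he
  have hm0 : 0 < m := by linarith
  set u₁ := max ((nm e.1 : ℝ) / s₂) ((nm e.2 : ℝ) / s₄) with hu1
  set u₂ := min ((nm e.1 : ℝ) / s₁) ((nm e.2 : ℝ) / s₃) with hu2
  have hmu : m ≤ u₁ := by
    rw [hm, Nat.cast_max]
    refine max_le_max ?_ ?_
    · exact le_div_self (Nat.cast_nonneg _) hs2 h2
    · exact le_div_self (Nat.cast_nonneg _) hs4 h4
  rcases lt_or_ge u₂ u₁ with hlt | hge
  · have hno : ∀ x : ℝ, ¬ cnd s₁ s₂ s₃ s₄ e x := by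
      intro x hx
      rw [cnd_iff h1 hs2 h3 hs4] at hx
      exact hx.2 (hlt.le.trans hx.1)
    simp only [hno, if_false, mul_zero, sum_const_zero, sub_zero, abs_zero]
    positivity
  · have hind : ∀ x : ℝ, (if cnd s₁ s₂ s₃ s₄ e x then (1 : ℝ) else 0) =
        (if u₁ ≤ x then 1 else 0) - (if u₂ ≤ x then 1 else 0) := by
      intro x
      have h5 := cnd_iff h1 hs2 h3 hs4 e x
      by_cases h6 : u₁ ≤ x
      · by_cases h7 : u₂ ≤ x
        · rw [if_neg (by rw [h5]; tauto), if_pos h6, if_pos h7, sub_self]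
        · rw [if_pos (by rw [h5]; exact ⟨h6, h7⟩), if_pos h6, if_neg h7, sub_zero]
      · have h7 : ¬ u₂ ≤ x := fun h => h6 (hge.trans h)
        rw [if_neg (by rw [h5]; tauto), if_neg h6, if_neg h7, sub_self]
    have hH1 : ∀ u : ℝ, ∑ X ∈ Icc 1 N, (p : ℝ) / (X : ℝ) ^ 2 *
        (if u ≤ (X : ℝ) / p then (1 : ℝ) else 0) = p * HH N (p * u) := by
      intro u
      unfold HH
      rw [mul_sum]
      refine sum_congr rfl fun X _ => ?_
      have : (u ≤ (X : ℝ) / p) ↔ ((p : ℝ) * u ≤ X) := by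
        rw [le_div_iff₀ hp0, mul_comm]
      by_cases h : (p : ℝ) * u ≤ X
      · rw [if_pos (this.mpr h), if_pos h]
        ring
      · rw [if_neg (fun h' => h (this.mp h')), if_neg h]
        ring
    have hH2 : ∀ u : ℝ, ∑ X ∈ Icc 1 N, 1 / (X : ℝ) ^ 2 *
        (if u ≤ (X : ℝ) then (1 : ℝ) else 0) = HH N u := by
      intro u
      unfold HH
      refine sum_congr rfl fun X _ => ?_
      by_cases h : u ≤ (X : ℝ)
      · rw [if_pos h, if_pos h]
        ring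
      · rw [if_neg h, if_neg h]
        ring
    simp only [hind, mul_sub, sum_sub_distrib, hH1, hH2]
    have d1 := delta hp hN hm1 hmu
    have d2 := delta hp hN hm1 (hmu.trans hge)
    have h8 : (p : ℝ) * HH N (p * u₁) - p * HH N (p * u₂) - (HH N u₁ - HH N u₂) =
        ((p : ℝ) * HH N (p * u₁) - HH N u₁) - ((p : ℝ) * HH N (p * u₂) - HH N u₂) := by ring
    rw [h8]
    refine (abs_sub _ _).trans ?_
    linarith

open scoped Classical in
theorem AG_eq (hD : t ^ 2 < 4 * c) (g : Qd t c × Qd t c → ℂ) {s₁ s₂ s₃ s₄ : ℝ} (h2 : s₂ ≤ 1)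
    (h4 : s₄ ≤ 1) {N : ℕ} {x : ℝ} (hx : 0 ≤ x) (hxN : x ≤ N) : AG g s₁ s₂ s₃ s₄ x =
      ∑ e ∈ dedge t c N, if (0 < pp e.1 e.2 ∧ cnd s₁ s₂ s₃ s₄ e x) then g e else 0 := by
  unfold AG
  rw [← sum_filter]
  refine sum_congr ?_ fun e _ => rfl
  ext e
  rw [mem_filter, mem_filter, mem_dedge hD, mem_dedge hD]
  simp only [cnd]
  constructor
  · rintro ⟨⟨⟨h5, h6⟩, ⟨h7, h8⟩, h9⟩, h10⟩
    exact ⟨⟨⟨h5, h6.trans hxN⟩, ⟨h7, h8.trans hxN⟩, h9⟩, h10⟩
  · rintro ⟨⟨⟨h5, h6⟩, ⟨h7, h8⟩, h9⟩, h11, h10⟩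
    refine ⟨⟨⟨h5, ?_⟩, ⟨h7, ?_⟩, h9⟩, h11, h10⟩
    · nlinarith [h10.2.1]
    · nlinarith [h10.2.2.2]

theorem dilx (hD : t ^ 2 < 4 * c) : Pool.Agent.N912.EP.W78EG.S_DILX t c := by
  classical
  intro g hg s₁ s₂ s₃ s₄ h1 h12 h2 h3 h34 h4
  have hc1 : (1 : ℝ) ≤ c := by exact_mod_cast Pool.Agent.W29.GA.c_pos hD
  refine ⟨1728 * c, fun p N hp hN => ?_⟩
  have hp0 : (0 : ℝ) < p := by exact_mod_cast hp
  have hp1 : (1 : ℝ) ≤ p := by exact_mod_cast hp
  have hN0 : (0 : ℝ) < N := by exact_mod_cast hN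
  let g' : Qd t c × Qd t c → ℂ := fun e => if 0 < pp e.1 e.2 then g e else 0
  have hg' : ∀ e, ‖g' e‖ ≤ 1 := by
    intro e
    simp only [g']
    split_ifs
    · exact hg e
    · simp
  have e1 : ∑ X ∈ Icc 1 N, (((p : ℝ) / (X : ℝ) ^ 2 : ℝ) : ℂ) * AG g s₁ s₂ s₃ s₄ ((X : ℝ) / p) =
      ∑ e ∈ dedge t c N, g' e * ((∑ X ∈ Icc 1 N, (p : ℝ) / (X : ℝ) ^ 2 *
        (if cnd s₁ s₂ s₃ s₄ e ((X : ℝ) / p) then 1 else 0) : ℝ) : ℂ) := by
    simp only [Complex.ofReal_sum, mul_sum]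
    rw [sum_comm]
    refine sum_congr rfl fun X hX => ?_
    have hX1 : (X : ℝ) ≤ N := by exact_mod_cast (mem_Icc.mp hX).2
    have hX0 : (0 : ℝ) ≤ X := Nat.cast_nonneg X
    rw [AG_eq hD g h2 h4 (N := N) (by positivity) ((div_le_self hX0 hp1).trans hX1), mul_sum]
    refine sum_congr rfl fun e _ => ?_
    simp only [g']
    by_cases h : cnd s₁ s₂ s₃ s₄ e ((X : ℝ) / p)
    · by_cases h' : 0 < pp e.1 e.2
      · rw [if_pos ⟨h', h⟩, if_pos h, if_pos h', mul_one]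
        ring
      · rw [if_neg (fun h'' => h' h''.1), if_neg h']
        ring
    · rw [if_neg (fun h'' => h h''.2), if_neg h, mul_zero, mul_zero, Complex.ofReal_zero, mul_zero]
  have e2 : ∑ X ∈ Icc 1 N, ((1 / (X : ℝ) ^ 2 : ℝ) : ℂ) * AG g s₁ s₂ s₃ s₄ X =
      ∑ e ∈ dedge t c N, g' e * ((∑ X ∈ Icc 1 N, 1 / (X : ℝ) ^ 2 *
        (if cnd s₁ s₂ s₃ s₄ e X then 1 else 0) : ℝ) : ℂ) := by
    simp only [Complex.ofReal_sum, mul_sum]
    rw [sum_comm]
    refine sum_congr rfl fun X hX => ?_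
    have hX1 : (X : ℝ) ≤ N := by exact_mod_cast (mem_Icc.mp hX).2
    have hX0 : (0 : ℝ) ≤ X := Nat.cast_nonneg X
    rw [AG_eq hD g h2 h4 (N := N) hX0 hX1, mul_sum]
    refine sum_congr rfl fun e _ => ?_
    simp only [g']
    by_cases h : cnd s₁ s₂ s₃ s₄ e X
    · by_cases h' : 0 < pp e.1 e.2
      · rw [if_pos ⟨h', h⟩, if_pos h, if_pos h', mul_one]
        ring
      · rw [if_neg (fun h'' => h' h''.1), if_neg h']
        ring
    · rw [if_neg (fun h'' => h h''.2), if_neg h, mul_zero, mul_zero, Complex.ofReal_zero, mul_zero]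
  rw [e1, e2, ← sum_sub_distrib]
  let k : Qd t c × Qd t c → ℕ := fun e => max (nm e.1) (nm e.2)
  let f : ℕ → ℝ := fun m => min (1 / (m : ℝ)) ((p : ℝ) / N) + 2 / (m : ℝ) ^ 2
  have hk1 : ∀ e ∈ dedge t c (N : ℝ), 1 ≤ k e := by
    intro e he
    rw [mem_dedge hD] at he
    exact le_max_of_le_left ((one_le_nm hD).2 (prim_ne_zero he.1.1))
  have hkN : ∀ e ∈ dedge t c (N : ℝ), k e ≤ N := by
    intro e he
    rw [mem_dedge hD] at he
    exact max_le (by exact_mod_cast he.1.2) (by exact_mod_cast he.2.1.2)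
  have hf : ∀ m, 1 ≤ m → f (m + 1) ≤ f m := by
    intro m hm
    have hm0 : (0 : ℝ) < m := by exact_mod_cast hm
    simp only [f]
    push_cast
    refine add_le_add (min_le_min_right _ ?_) ?_
    · exact one_div_le_one_div_of_le hm0 (by linarith)
    · refine div_le_div_of_nonneg_left (by norm_num) (by positivity) ?_
      exact pow_le_pow_left₀ hm0.le (by linarith) 2
  have hC : ∀ m : ℕ, (((dedge t c (N : ℝ)).filter (fun e => k e ≤ m)).card : ℝ) ≤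
      144 * c * m := by
    intro m
    refine le_trans ?_ (dedge_card hD (Nat.cast_nonneg m))
    have : (dedge t c (N : ℝ)).filter (fun e => k e ≤ m) ⊆ dedge t c (m : ℝ) := by
      intro e he
      rw [mem_filter, mem_dedge hD] at he
      rw [mem_dedge hD]
      obtain ⟨⟨⟨h5, h6⟩, ⟨h7, h8⟩, h9⟩, h10⟩ := he
      have h11 : nm e.1 ≤ m ∧ nm e.2 ≤ m := max_le_iff.mp h10
      exact ⟨⟨h5, by exact_mod_cast h11.1⟩, ⟨h7, by exact_mod_cast h11.2⟩, h9⟩
    exact_mod_cast card_le_card this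
  have hab := abel (dedge t c (N : ℝ)) k f (144 * c) hk1 hf hC N
  have hfil : (dedge t c (N : ℝ)).filter (fun e => k e ≤ N) = dedge t c (N : ℝ) :=
    filter_true_of_mem hkN
  rw [hfil] at hab
  have hf0 : 0 ≤ f N := by
    simp only [f]
    positivity
  have hcard : 0 ≤ 144 * c * (N : ℝ) - ((dedge t c (N : ℝ)).card : ℝ) := by
    have := dedge_card hD (X := (N : ℝ)) hN0.le
    linarith
  have hsum1 : ∑ e ∈ dedge t c (N : ℝ), f (k e) ≤ 144 * c * ∑ m ∈ Icc 1 N, f m := by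
    have := mul_nonneg hcard hf0
    linarith
  have hsum2 : ∑ m ∈ Icc 1 N, f m ≤ 6 + Real.log p := by
    have h5 := min_sum hp hN
    have h6 := sum_inv_sq N
    have h7 : ∑ m ∈ Icc 1 N, f m = ∑ m ∈ Icc 1 N, min (1 / (m : ℝ)) ((p : ℝ) / N) +
        2 * ∑ m ∈ Icc 1 N, 1 / (m : ℝ) ^ 2 := by
      rw [mul_sum, ← sum_add_distrib]
      refine sum_congr rfl fun m _ => ?_
      simp only [f]
      ring
    rw [h7]
    linarith
  have hlog : 0 ≤ Real.log p := Real.log_nonneg hp1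
  have hsum3 : 144 * (c : ℝ) * ∑ m ∈ Icc 1 N, f m ≤ 144 * c * (6 + Real.log p) :=
    mul_le_mul_of_nonneg_left hsum2 (by linarith)
  have hlast : 2 * (144 * (c : ℝ) * (6 + Real.log p)) ≤ 1728 * c * (1 + Real.log p) := by
    have h9 : 0 ≤ (c : ℝ) * Real.log p := mul_nonneg (by linarith) hlog
    have e3 : 2 * (144 * (c : ℝ) * (6 + Real.log p)) = 1728 * c + 288 * (c * Real.log p) := by ring
    have e4 : 1728 * (c : ℝ) * (1 + Real.log p) = 1728 * c + 1728 * (c * Real.log p) := by ring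
    rw [e3, e4]
    linarith
  calc _ ≤ ∑ e ∈ dedge t c (N : ℝ), 2 * f (k e) := by
        refine (norm_sum_le _ _).trans (sum_le_sum fun e he => ?_)
        rw [← mul_sub, norm_mul, ← Complex.ofReal_sub, Complex.norm_real, Real.norm_eq_abs]
        have h8 := one_pair h1 h12 h2 h3 h34 h4 hp hN e (hk1 e he)
        refine le_trans (mul_le_mul_of_nonneg_right (hg' e) (abs_nonneg _)) ?_
        rw [one_mul]
        exact h8
    _ = 2 * ∑ e ∈ dedge t c (N : ℝ), f (k e) := by rw [mul_sum]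
    _ ≤ 2 * (144 * c * (6 + Real.log p)) := by linarith
    _ ≤ 1728 * c * (1 + Real.log p) := hlast

end Pool.Agent.N912.EP.W74EG
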