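import Pool.Agent.N912.ED.All
import Pool.Agent.N296.EM.Sml
import Pool.Agent.N912.EP.N912ELAvx2
import Pool.Agent.N912.EP.N912ELMaina
import Pool.Agent.N912.EP.N232EL11
import Pool.Agent.N912.EP.W191EGZX
import Pool.Agent.N912.EP.W371EGBij
import Pool.Agent.N912.EP.W143EGDcp
import Pool.Agent.N912.EP.W554EGCnt
import Pool.Agent.N912.EP.W74EGDilx
import Pool.Agent.N912.EP.W632EGRegx
import Pool.Agent.N912.EP.W349EGDcv
import Pool.Agent.N912.EP.W349EGPw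
import Pool.Agent.N912.EP.W108EGTree
import Pool.Agent.N912.EP.W164EGBdd

/-!
Project EP (helper912): assembly of the two-factor method in all imaginary quadratic orders, with the
primes which are norms of elements.
-/

set_option autoImplicit false

namespace Pool.Agent.N912.EP

open Finset Filter
open Pool.Agent.W78.GA (Qd nm prim dt ip ball pball edge dedge)
open Pool.Agent.W251.GX (Cm)
open Pool.Agent.N912.EP.W78EG
open Pool.Agent.N912.EP.N912EL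

variable {t c : ℤ} {f : ℕ} {χ : PS f}

theorem hDG (hF : Fd t c f χ) : t ^ 2 < 4 * c := Pool.Agent.N912.ED.hDG (toED hF)

theorem dtbG (hF : Fd t c f χ) : S_DTB t c f := Pool.Agent.N912.ED.dtbG (toED hF)

theorem pcntG (hF : Fd t c f χ) : S_PCNT χ := Pool.Agent.N912.EP.W554EG.pcnt hF

theorem dcpG (hF : Fd t c f χ) : S_DCP t c χ :=
  Pool.Agent.N912.EP.W143EG.dcp hF Pool.Agent.W212.EC.ce
    (Pool.Agent.W52.EC.tup Pool.Agent.W212.EC.ce)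
    (Pool.Agent.W327.EC.code Pool.Agent.W212.EC.ce) Pool.Agent.W721.ECV.dv
    (Pool.Agent.N912.EP.W108EG.tree hF) (Pool.Agent.N912.EP.W554EG.ecnt hF) (pcntG hF)
    (Pool.Agent.N912.EP.W554EG.resc (hDG hF))

theorem zxG (hF : Fd t c f χ) : S_ZX t c χ :=
  Pool.Agent.N912.EP.W191EG.zx hF (Pool.Agent.N912.EP.W108EG.ptsT hF) Pool.Agent.W499.EC.avg
    Pool.Agent.N912.EP.W164EG.bdd (dtbG hF)

theorem regxG (hF : Fd t c f χ) : S_REGX t c := Pool.Agent.N912.EP.W632EG.regx (hDG hF)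

theorem dcvG (hF : Fd t c f χ) : S_DCV χ := by
  obtain ⟨ρ, hρ, hd⟩ := hF.dens
  exact Pool.Agent.N912.EP.W349EG.dcv hρ (Pool.Agent.N912.EP.W349EG.pw hρ hd)

theorem bijG (hF : Fd t c f χ) : S_BIJ t c χ := Pool.Agent.N912.EP.W371EG.bij hF

theorem lossG (hF : Fd t c f χ) : S_LOSS t c χ := by
  intro s ε hs hε
  obtain ⟨K₀, h1⟩ := Pool.Agent.N912.ED.W465EGL.loss (toED hF) s ε hs hε
  refine ⟨K₀, fun K hK => ?_⟩
  obtain ⟨κ₀, hκ₀, h2⟩ := h1 K hK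
  refine ⟨κ₀, hκ₀, fun κ hκ hκκ => ?_⟩
  obtain ⟨Q₀, h3⟩ := h2 κ hκ hκκ
  refine ⟨Q₀, fun Q hQ => ?_⟩
  obtain ⟨X₀, h4⟩ := h3 Q hQ
  refine ⟨X₀, fun X hX p hp => h4 X hX p ?_⟩
  rw [mem_PQ'] at hp
  unfold Pool.Agent.N912.ED.W78EG.PQ
  rw [mem_filter, mem_Ioc]
  exact ⟨hp.1, hp.2.1, trivial⟩

theorem avxaG (hF : Fd t c f χ) (hn : Nr t c χ) : S_AVXa t c χ :=
  Pool.Agent.N912.EP.N912EL.avxa hF hn (zxG hF) (Pool.Agent.N912.EP.N232EL.pera hF (bijG hF))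
    (dcpG hF) (lossG hF) (pcntG hF)

theorem mainaG (hF : Fd t c f χ) (hn : Nr t c χ) : S_MAINa t c χ :=
  Pool.Agent.N912.EP.N912EL.maina hF (avxaG hF hn) (regxG hF) (dcvG hF) (pcntG hF)

/-- the bilinear estimate for the primes in a set from that for all primes -/
theorem bta_of {A : Qd t c → ℝ}
    (h : Pool.Agent.N912.ED.N912EL.Bta (1 : DirichletCharacter ℂ f) A) (χ : PS f) : Bta χ A := by
  classical
  intro K κ s s₁ s₂ ε hK hκ hs h1 h12 h2 hε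
  obtain ⟨Q₀, h3⟩ := h K κ s s₁ s₂ ε hK hκ hs h1 h12 h2 hε
  refine ⟨Q₀, fun Q hQ => ?_⟩
  obtain ⟨X₀, h4⟩ := h3 Q hQ
  refine ⟨X₀, fun X hX a ha α hα hα' => ?_⟩
  have h5 := h4 X hX (fun m => if χ m then a m else 0) (fun m => by
    split_ifs
    · exact ha m
    · simp) α hα hα'
  refine le_trans (le_of_eq ?_) h5
  congr 1
  refine sum_congr rfl fun e _ => sum_congr rfl fun v _ => sum_congr rfl fun w _ => ?_
  congr 1
  unfold ta Pool.Agent.N912.ED.N912EL.ta th Pool.Agent.N912.ED.W78EG.th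
  have e1 : (0 < dt v w ∧ (dt v w).toNat ∈ PQ χ Q) ↔
      (0 < dt v w ∧ (dt v w).toNat ∈ Pool.Agent.N912.ED.W78EG.PQ (1 : DirichletCharacter ℂ f) Q) ∧
        χ (dt v w).toNat := by
    rw [mem_PQ']
    unfold Pool.Agent.N912.ED.W78EG.PQ
    rw [mem_filter, mem_Ioc]
    tauto
  beta_reduce
  by_cases h6 : χ (dt v w).toNat
  · rw [if_pos h6]
    by_cases h7 : 0 < dt v w ∧ (dt v w).toNat ∈ Pool.Agent.N912.ED.W78EG.PQ (1 : DirichletCharacter ℂ f) Q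
    · rw [if_pos h7, if_pos (e1.2 ⟨h7, h6⟩)]
    · rw [if_neg h7, if_neg (fun h => h7 (e1.1 h).1)]
  · rw [if_neg h6, if_neg (fun h => h6 (e1.1 h).2), mul_zero, zero_mul]

theorem btclG (hF : Fd t c f χ) (N : ℕ) (F : Qd t c → ℂ) (h : Apd N F) (q : ℕ) (β : Qd t c)
    (hq : 1 ≤ q) : Bta χ (cl q β (fun z => (F z).re)) ∧ Bta χ (cl q β (fun z => (F z).im)) := by
  obtain ⟨h1, h2⟩ := Pool.Agent.N912.ED.btclG (toED hF) (Pool.Agent.N296.EM.sml (toED hF)) N F h q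
    β hq
  exact ⟨bta_of h1 χ, bta_of h2 χ⟩

/-- the two-factor theorem for pairs of determinant `1`, at almost all scales -/
theorem mainG (hF : Fd t c f χ) (hn : Nr t c χ) (N : ℕ) (F₁ F₂ : Qd t c → ℂ) (h1 : Cm N F₁) (h2 : Apd N F₂) (q : ℕ)
    (hq : 1 ≤ q) (R : Qd t c → Qd t c → Prop) (hR : Rel q R) (s₁ s₂ s₃ s₄ : ℝ) (g1 : 0 < s₁)
    (g2' : s₁ < s₂) (g3 : s₂ ≤ 1) (g4 : 0 < s₃) (g5 : s₃ < s₄) (g6 : s₄ ≤ 1) (ε : ℝ) (hε : 0 < ε) :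
    ∃ N₀ : ℕ, ∀ N' : ℕ, N₀ ≤ N' →
    ∑ X ∈ Icc 1 N', 1 / (X : ℝ) ^ 2 * ‖AG (g2 F₁ F₂ R) s₁ s₂ s₃ s₄ X‖ ≤ ε * Real.log N' :=
  mainaG hF hn N F₁ F₂ h1 h2.cm q hq (fun β => btclG hF N F₂ h2 q β hq) R hR s₁ s₂ s₃ s₄ g1 g2' g3 g4
    g5 g6 ε hε

end Pool.Agent.N912.EP
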