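import Pool.Agent.N912.EP.W78EGDefs

/-!
Project EP (helper912): the two-factor method for arbitrary completely multiplicative functions of the
elements of an imaginary quadratic order. Statements of the parts (port of `N912/EL/Stm`).
-/

set_option autoImplicit false

namespace Pool.Agent.N912.EP.N912EL

open Finset Filter
open Pool.Agent.W78.GA (Qd nm prim dt ip lat ball pball edge dedge ang)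
open Pool.Agent.W78.EC (psi Tr av)
open Pool.Agent.W251.GX (Cm)
open Pool.Agent.N912.EP.W78EG

variable {t c : ℤ} {f : ℕ}

/-- `a(m) θ(m)` -/
noncomputable def ta (χ : PS f) (a : ℕ → ℝ) (Q : ℕ) (m : ℤ) : ℝ :=
  a m.toNat * th χ Q m

/-- the bilinear estimate with coefficients -/
def Bta (χ : PS f) (A : Qd t c → ℝ) : Prop := ∀ (K : ℕ) (κ s s₁ s₂ ε : ℝ),
  1 ≤ K → 0 < κ → 0 < s → 0 < s₁ →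
  s₁ < s₂ → s₂ ≤ 1 → 0 < ε → ∃ Q₀ : ℕ, ∀ Q : ℕ, Q₀ ≤ Q → ∃ X₀ : ℝ, ∀ X : ℝ, X₀ ≤ X →
    ∀ a : ℕ → ℝ, (∀ m, |a m| ≤ 1) →
    ∀ α : Qd t c → ℝ, (∀ z, |α z| ≤ 1) → (∀ z, α z ≠ 0 → s * X < (nm z : ℝ)) →
    |∑ e ∈ good t c K κ Q X, ∑ v ∈ cone X e.1 e.2, ∑ w ∈ cw X s₁ s₂ e.1 e.2,
      α v * A w * ta χ a Q (dt v w)| ≤ ε * X * Q

open scoped Classical in
/-- PERa: the estimate for fixed `X`, with complex coefficients `u p` -/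
def S_PERa (t c : ℤ) (χ : PS f) : Prop := ∀ (K : ℕ) (κ : ℝ) (Q : ℕ) (X : ℝ)
  (A : Type) (d₁ d₂ : A → ℂ) (lab : Qd t c → A)
  (ϖ : ℕ → Qd t c) (r : ℕ → ℤ) (u : ℕ → ℂ) (ζ₁ ζ₂ : ℕ → Tr A → ℕ × ℕ × ℕ × ℕ → ℝ), 1 ≤ K →
  0 < κ → 1 ≤ Q → f * (K * Q : ℝ) ≤ X →
  (∀ p ∈ PQ χ Q, nm (ϖ p) = p ∧ lat p (r p) (ϖ p) ∧ (p : ℤ) ∣ r p ^ 2 - t * r p + c) →
  (∀ e ∈ good t c K κ Q X, ∀ p ∈ PQ χ Q,
    (((ζ₁ p (TT lab X e) (res p e) : ℝ) : ℂ) + Complex.I * ((ζ₂ p (TT lab X e) (res p e) : ℝ) : ℂ) =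
      (((p : ℝ) + 1) / (2 * Q) : ℝ) * ∑ z ∈ cone X e.1 e.2, ∑ w ∈ cone X e.1 e.2,
        (if dt z w = p ∧ lat p (r p) z then d₁ (lab z) * d₂ (lab w) else 0)) ∧
    (((av p (ζ₁ p) (TT lab X e) : ℝ) : ℂ) + Complex.I * ((av p (ζ₂ p) (TT lab X e) : ℝ) : ℂ) =
      (1 / (2 * (Q : ℝ)) : ℝ) * ∑ z ∈ cone X e.1 e.2, ∑ w ∈ cone X e.1 e.2,
        (if dt z w = p then d₁ (lab z) * d₂ (lab w) else 0))) →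
  ‖∑ p ∈ PQ χ Q, ((Real.log p * ((p : ℝ) + 1) : ℝ) : ℂ) * (u p *
      ∑ e ∈ (dedge t c (X / p)).filter (InG K κ Q X (ϖ p)),
        d₁ (lab (ϖ p * e.1)) * d₂ (lab (ϖ p * e.2)))‖ ≤
    2 * Q * ∑ e ∈ edge t c (X / (K * Q)),
      (|∑ p ∈ PQ χ Q, Real.log p *
          (((u p).re * ζ₁ p (TT lab X e) (res p e) - (u p).im * ζ₂ p (TT lab X e) (res p e)) -
            av p (fun T y => (u p).re * ζ₁ p T y - (u p).im * ζ₂ p T y) (TT lab X e))| +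
        |∑ p ∈ PQ χ Q, Real.log p *
          (((u p).re * ζ₂ p (TT lab X e) (res p e) + (u p).im * ζ₁ p (TT lab X e) (res p e)) -
            av p (fun T y => (u p).re * ζ₂ p T y + (u p).im * ζ₁ p T y) (TT lab X e))|) +
    ‖∑ e ∈ good t c K κ Q X, ∑ v ∈ cone X e.1 e.2, ∑ w ∈ cone X e.1 e.2,
      d₁ (lab v) * d₂ (lab w) * (u (dt v w).toNat * (th χ Q (dt v w) : ℂ))‖

/-- AVXa: the mean over the primes of `PQ χ Q`, for most scales, for arbitrary functions -/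
def S_AVXa (t c : ℤ) (χ : PS f) : Prop := ∀ (N : ℕ)
  (F₁ F₂ : Qd t c → ℂ), Cm N F₁ → Cm N F₂ → ∀ q : ℕ, 1 ≤ q →
  (∀ β : Qd t c, Bta χ (cl q β (fun z => (F₂ z).re)) ∧ Bta χ (cl q β (fun z => (F₂ z).im))) →
  ∀ R : Qd t c → Qd t c → Prop, Rel q R → ∀ (s₁ s₂ s₃ s₄ : ℝ), 0 < s₁ → s₁ < s₂ → s₂ ≤ 1 →
  0 < s₃ → s₃ < s₄ → s₄ ≤ 1 → ∀ ε : ℝ, 0 < ε → ∀ Q₁ : ℕ, ∃ Q₂ N₀ : ℕ, ∀ N' : ℕ, N₀ ≤ N' →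
    ∃ Q : ℕ, Q₁ ≤ Q ∧ Q ≤ Q₂ ∧ ∑ X ∈ Icc 1 N', 1 / (X : ℝ) ^ 2 *
      ‖∑ p ∈ PQ χ Q, ((Real.log p * ((p : ℝ) + 1) : ℝ) : ℂ) *
        AG (g2 F₁ F₂ R) s₁ s₂ s₃ s₄ ((X : ℝ) / p)‖ ≤ ε * Q * Real.log N'

/-- MAINa: the means are small at almost all scales, for arbitrary functions -/
def S_MAINa (t c : ℤ) (χ : PS f) : Prop := ∀ (N : ℕ)
  (F₁ F₂ : Qd t c → ℂ), Cm N F₁ → Cm N F₂ → ∀ q : ℕ, 1 ≤ q →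
  (∀ β : Qd t c, Bta χ (cl q β (fun z => (F₂ z).re)) ∧ Bta χ (cl q β (fun z => (F₂ z).im))) →
  ∀ R : Qd t c → Qd t c → Prop, Rel q R → ∀ (s₁ s₂ s₃ s₄ : ℝ), 0 < s₁ → s₁ < s₂ → s₂ ≤ 1 →
  0 < s₃ → s₃ < s₄ → s₄ ≤ 1 → ∀ ε : ℝ, 0 < ε → ∃ N₀ : ℕ, ∀ N' : ℕ, N₀ ≤ N' →
    ∑ X ∈ Icc 1 N', 1 / (X : ℝ) ^ 2 * ‖AG (g2 F₁ F₂ R) s₁ s₂ s₃ s₄ X‖ ≤ ε * Real.log N'

end Pool.Agent.N912.EP.N912EL
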