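import Pool.Agent.N912.EP.W108EGTree1

/-!
# Project EG: structure of the Farey trees
-/

set_option autoImplicit false

namespace Pool.Agent.N912.EP.W108EG

open Finset Filter
open Pool.Agent.W78.GA
open Pool.Agent.W78.EC (Tr pts rs)
open Pool.Agent.N912.EP.W78EG

variable {t c : ℤ}

section tree

variable {A : Type}

lemma lv_length (T : Tr A) : ∀ a b : Qd t c, (lv T a b).length = T.size + 1 := by
  induction T with
  | leaf => intro a b; rfl
  | node x l r ihl ihr =>
    intro a b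
    show (lv l a (a + b) ++ lv r (a + b) b).length = l.size + r.size + 1 + 1
    rw [List.length_append, ihl, ihr]
    omega

/-- coordinates of the leaf edges -/
def co : Tr A → ℕ × ℕ → ℕ × ℕ → List ((ℕ × ℕ) × (ℕ × ℕ))
  | .leaf, x, y => [(x, y)]
  | .node _ l r, x, y => co l x (x + y) ++ co r (x + y) y

lemma lv_co (T : Tr A) (e : Qd t c × Qd t c) : ∀ x y : ℕ × ℕ, lv T (evx e x) (evx e y) =
    (co T x y).map (fun q => (evx e q.1, evx e q.2)) := by
  induction T with
  | leaf => intro x y; rfl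
  | node z l r ihl ihr =>
    intro x y
    show lv l (evx e x) (evx e x + evx e y) ++ lv r (evx e x + evx e y) (evx e y) =
      (co l x (x + y) ++ co r (x + y) y).map _
    rw [List.map_append, ← ihl, ← ihr, evx_add]

lemma lv_co' (T : Tr A) (e : Qd t c × Qd t c) : lv T e.1 e.2 =
    (co T (1, 0) (0, 1)).map (fun q => (evx e q.1, evx e q.2)) := by
  rw [← lv_co T e (1, 0) (0, 1), evx_one, evx_two]

/-- the determinant of the coordinates is one -/
lemma co_det (T : Tr A) : ∀ x y : ℕ × ℕ, (x.1 : ℤ) * y.2 - x.2 * y.1 = 1 →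
    ∀ q ∈ co T x y, (q.1.1 : ℤ) * q.2.2 - q.1.2 * q.2.1 = 1 := by
  induction T with
  | leaf =>
    intro x y h q hq
    rw [show co (Tr.leaf : Tr A) x y = [(x, y)] from rfl, List.mem_singleton] at hq
    rw [hq]
    exact h
  | node z l r ihl ihr =>
    intro x y h q hq
    rw [show co (Tr.node z l r) x y = co l x (x + y) ++ co r (x + y) y from rfl,
      List.mem_append] at hq
    rcases hq with hq | hq
    · refine ihl x (x + y) ?_ q hq
      rw [Prod.fst_add, Prod.snd_add]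
      push_cast
      linarith
    · refine ihr (x + y) y ?_ q hq
      rw [Prod.fst_add, Prod.snd_add]
      push_cast
      linarith

/-- the leaf edges lie in the closed cone over the root edge -/
lemma lv_cone (T : Tr A) (a b : Qd t c) (h : dt a b = 1) (f : Qd t c × Qd t c) (hf : f ∈ lv T a b) :
    dt f.1 f.2 = 1 ∧ 0 ≤ dt a f.1 ∧ 0 ≤ dt f.1 b ∧ 0 ≤ dt a f.2 ∧ 0 ≤ dt f.2 b := by
  have h1 := lv_co' T (a, b)
  simp only at h1
  rw [h1, List.mem_map] at hf
  obtain ⟨q, hq, rfl⟩ := hf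
  have h2 := co_det T (1, 0) (0, 1) (by norm_num) q hq
  rw [dtZ] at h
  simp only [dtZ, evx_re, evx_im]
  have c1 : (0 : ℤ) ≤ q.1.1 := Int.natCast_nonneg _
  have c2 : (0 : ℤ) ≤ q.1.2 := Int.natCast_nonneg _
  have c3 : (0 : ℤ) ≤ q.2.1 := Int.natCast_nonneg _
  have c4 : (0 : ℤ) ≤ q.2.2 := Int.natCast_nonneg _
  refine ⟨?_, ?_, ?_, ?_, ?_⟩
  · linear_combination ((q.1.1 : ℤ) * q.2.2 - q.1.2 * q.2.1) * h + h2
  · have : a.re * (q.1.1 * a.im + q.1.2 * b.im) - a.im * (q.1.1 * a.re + q.1.2 * b.re) = q.1.2 := by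
      linear_combination (q.1.2 : ℤ) * h
    rw [this]; exact c2
  · have : (q.1.1 * a.re + q.1.2 * b.re) * b.im - (q.1.1 * a.im + q.1.2 * b.im) * b.re = q.1.1 := by
      linear_combination (q.1.1 : ℤ) * h
    rw [this]; exact c1
  · have : a.re * (q.2.1 * a.im + q.2.2 * b.im) - a.im * (q.2.1 * a.re + q.2.2 * b.re) = q.2.2 := by
      linear_combination (q.2.2 : ℤ) * h
    rw [this]; exact c4
  · have : (q.2.1 * a.re + q.2.2 * b.re) * b.im - (q.2.1 * a.im + q.2.2 * b.im) * b.re = q.2.1 := by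
      linear_combination (q.2.1 : ℤ) * h
    rw [this]; exact c3

lemma lv_nodup (T : Tr A) : ∀ a b : Qd t c, dt a b = 1 → (lv T a b).Nodup := by
  induction T with
  | leaf => intro a b _; exact List.nodup_singleton _
  | node z l r ihl ihr =>
    intro a b h
    have hl : dt a (a + b) = 1 := by
      rw [dtZ] at h ⊢
      rw [re_add', im_add']
      linarith
    have hr : dt (a + b) b = 1 := by
      rw [dtZ] at h ⊢
      rw [re_add', im_add']
      linarith
    show (lv l a (a + b) ++ lv r (a + b) b).Nodup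
    rw [List.nodup_append']
    refine ⟨ihl _ _ hl, ihr _ _ hr, ?_⟩
    rw [List.disjoint_left]
    intro f hf1 hf2
    obtain ⟨h1, -, h2, -, h3⟩ := lv_cone l a (a + b) hl f hf1
    obtain ⟨-, h4, h4', h5, h5'⟩ := lv_cone r (a + b) b hr f hf2
    have e1 : dt f.1 (a + b) = 0 := by
      have : dt f.1 (a + b) = -dt (a + b) f.1 := by rw [dtZ, dtZ]; ring
      linarith
    have e2 : dt f.2 (a + b) = 0 := by
      have : dt f.2 (a + b) = -dt (a + b) f.2 := by rw [dtZ, dtZ]; ring
      linarith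
    -- `f.1` and `f.2` are parallel to `a + b`
    have e3 : (dt f.1 f.2) * (a + b).re = 0 := by
      rw [dtZ] at e1 e2 ⊢
      linear_combination f.2.re * (-1 : ℤ) * e1 * (-1) - f.1.re * e2
    have e4 : (dt f.1 f.2) * (a + b).im = 0 := by
      rw [dtZ] at e1 e2 ⊢
      linear_combination f.2.im * e1 - f.1.im * e2
    rw [h1, one_mul] at e3 e4
    rw [dtZ, e3, e4] at hr
    simp at hr

/-- grafting -/
def graft : Tr A → List (Tr A) → Tr A
  | .leaf, L => L.headD .leaf
  | .node x l r, L => .node x (graft l (L.take (l.size + 1))) (graft r (L.drop (l.size + 1)))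

lemma TT_graft (hD : t ^ 2 < 4 * c) (lab : Qd t c → A) (Y' X : ℝ) (hX : Y' ≤ X) :
    ∀ a b, V a b →
    TT lab X (a, b) = graft (TT lab Y' (a, b)) ((lv (TT lab Y' (a, b)) a b).map (TT lab X)) := by
  refine ind hD Y' (fun a b h h1 => ?_) fun a b h h1 ih1 ih2 => ?_
  · rw [TT_leaf lab Y' a b h1]
    rfl
  · rw [TT_node hD lab Y' a b h h1, TT_node hD lab X a b h (h1.trans hX)]
    have e : lv (Tr.node (lab (a + b)) (TT lab Y' (a, a + b)) (TT lab Y' (a + b, b))) a b =
        lv (TT lab Y' (a, a + b)) a (a + b) ++ lv (TT lab Y' (a + b, b)) (a + b) b := rfl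
    rw [e, List.map_append]
    have e2 : ∀ L, graft (Tr.node (lab (a + b)) (TT lab Y' (a, a + b)) (TT lab Y' (a + b, b))) L =
        .node (lab (a + b)) (graft (TT lab Y' (a, a + b)) (L.take ((TT lab Y' (a, a + b)).size + 1)))
          (graft (TT lab Y' (a + b, b)) (L.drop ((TT lab Y' (a, a + b)).size + 1))) := fun L => rfl
    rw [e2]
    have e3 : ((lv (TT lab Y' (a, a + b)) a (a + b)).map (TT lab X)).length =
        (TT lab Y' (a, a + b)).size + 1 := by
      rw [List.length_map, lv_length]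
    rw [List.take_left' e3, List.drop_left' e3, ← ih1, ← ih2]

/-! ### Descent -/

lemma leaves_edge (hD : t ^ 2 < 4 * c) (lab : Qd t c → A) (Y' : ℝ) :
    ∀ a b, V a b → (nm a : ℝ) ≤ Y' → (nm b : ℝ) ≤ Y' →
    ∀ f ∈ lv (TT lab Y' (a, b)) a b, f ∈ edge t c Y' := by
  refine ind hD Y' (fun a b h h1 ha hb f hf => ?_) fun a b h h1 ih1 ih2 ha hb f hf => ?_
  · rw [TT_leaf lab Y' a b h1, show lv (Tr.leaf : Tr A) a b = [(a, b)] from rfl,
      List.mem_singleton] at hf
    rw [hf]
    exact edge_of_V hD h ha hb h1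
  · rw [TT_node hD lab Y' a b h h1,
      show lv (Tr.node (lab (a + b)) (TT lab Y' (a, a + b)) (TT lab Y' (a + b, b))) a b =
        lv (TT lab Y' (a, a + b)) a (a + b) ++ lv (TT lab Y' (a + b, b)) (a + b) b from rfl,
      List.mem_append] at hf
    rcases hf with hf | hf
    · exact ih1 ha h1 f hf
    · exact ih2 h1 hb f hf

/-- arithmetic for the parents: `4 x y = p ^ 2 + f`, `x < y`, `f < y` -/
lemma arith2 {x y p d : ℤ} (hx : 1 ≤ x) (hxy : x < y) (hd : 0 ≤ d) (hdy : d < y)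
    (he : p ^ 2 + d = 4 * (x * y)) (hp : 0 ≤ p) : 2 * x ≤ p := by
  by_contra hc
  push Not at hc
  have h1 : p ^ 2 ≤ (2 * x) ^ 2 := pow_le_pow_left₀ hp hc.le 2
  have h2 : y - 1 ≤ x * (y - x) := by nlinarith [mul_nonneg (sub_nonneg.2 hx) (by linarith : 0 ≤ y - x - 1)]
  nlinarith

lemma dt_sub_right (a b : Qd t c) : dt a (b - a) = dt a b := by
  have hre : (b - a).re = b.re - a.re := rfl
  have him : (b - a).im = b.im - a.im := rfl
  rw [dtZ, dtZ, hre, him]
  ring

lemma dt_sub_left (a b : Qd t c) : dt (a - b) b = dt a b := by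
  have hre : (a - b).re = a.re - b.re := rfl
  have him : (a - b).im = a.im - b.im := rfl
  rw [dtZ, dtZ, hre, him]
  ring

/-- the parent on the right -/
lemma parent_right (hD : t ^ 2 < 4 * c) {f : ℕ} (hf : 4 * c = t ^ 2 + f) {u v : Qd t c}
    (h : V u v) (hlt : nm u < nm v) (hfv : f < nm v) : V u (v - u) ∧
    nm (v - u) + nm u ≤ nm v := by
  have e1 := ppdt hD u v
  rw [h.1] at e1
  have e3 : pp u v ^ 2 + (f : ℤ) = 4 * (nm u * nm v) := by
    rw [← e1]
    linarith
  obtain ⟨p1, p2⟩ := pos_of_dt hD h.1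
  have p1' : (1 : ℤ) ≤ nm u := by exact_mod_cast p1
  have hlt' : (nm u : ℤ) < nm v := by exact_mod_cast hlt
  have hfv' : (f : ℤ) < nm v := by exact_mod_cast hfv
  have hge : 2 * (nm u : ℤ) ≤ pp u v := arith2 p1' hlt' (Int.natCast_nonneg _) hfv' e3 h.2
  have hre : (v - u).re = v.re - u.re := rfl
  have him : (v - u).im = v.im - u.im := rfl
  have hip : pp u (v - u) = pp u v - 2 * nm u := by
    rw [ppZ, ppZ, nm_cast hD, hre, him]
    ring
  have hnm : (nm (v - u) : ℤ) = nm v + nm u - pp u v := by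
    rw [nm_cast hD, nm_cast hD, nm_cast hD, ppZ, hre, him]
    ring
  refine ⟨⟨by rw [dt_sub_right]; exact h.1, by rw [hip]; linarith⟩, ?_⟩
  have : ((nm (v - u) + nm u : ℕ) : ℤ) ≤ nm v := by
    push_cast
    rw [hnm]
    linarith
  exact_mod_cast this

/-- the parent on the left -/
lemma parent_left (hD : t ^ 2 < 4 * c) {f : ℕ} (hf : 4 * c = t ^ 2 + f) {u v : Qd t c}
    (h : V u v) (hlt : nm v < nm u) (hfu : f < nm u) : V (u - v) v ∧
    nm (u - v) + nm v ≤ nm u := by
  have e1 := ppdt hD u v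
  rw [h.1] at e1
  have e3 : pp u v ^ 2 + (f : ℤ) = 4 * (nm v * nm u) := by
    rw [mul_comm (nm v : ℤ), ← e1]
    linarith
  obtain ⟨p1, p2⟩ := pos_of_dt hD h.1
  have p1' : (1 : ℤ) ≤ nm v := by exact_mod_cast p2
  have hlt' : (nm v : ℤ) < nm u := by exact_mod_cast hlt
  have hfu' : (f : ℤ) < nm u := by exact_mod_cast hfu
  have hge : 2 * (nm v : ℤ) ≤ pp u v := arith2 p1' hlt' (Int.natCast_nonneg _) hfu' e3 h.2
  have hre : (u - v).re = u.re - v.re := rfl
  have him : (u - v).im = u.im - v.im := rfl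
  have hip : pp (u - v) v = pp u v - 2 * nm v := by
    rw [ppZ, ppZ, nm_cast hD, hre, him]
    ring
  have hnm : (nm (u - v) : ℤ) = nm u + nm v - pp u v := by
    rw [nm_cast hD, nm_cast hD, nm_cast hD, ppZ, hre, him]
    ring
  refine ⟨⟨by rw [dt_sub_left]; exact h.1, by rw [hip]; linarith⟩, ?_⟩
  have : ((nm (u - v) + nm v : ℕ) : ℤ) ≤ nm u := by
    push_cast
    rw [hnm]
    linarith
  exact_mod_cast this

lemma eq_norm (hD : t ^ 2 < 4 * c) {f : ℕ} (hf : 4 * c = t ^ 2 + f) (hf3 : 3 ≤ f) {u v : Qd t c}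
    (h : V u v) (heq : nm u = nm v) : nm u ≤ f := by
  have e1 := ppdt hD u v
  rw [h.1, ← heq] at e1
  have e3 : pp u v ^ 2 + (f : ℤ) = 4 * (nm u * nm u) := by
    rw [← e1]
    linarith
  obtain ⟨p1, -⟩ := pos_of_dt hD h.1
  have p1' : (1 : ℤ) ≤ nm u := by exact_mod_cast p1
  have hf3' : (3 : ℤ) ≤ f := by exact_mod_cast hf3
  have h0 := h.2
  have h2 : pp u v < 2 * nm u := by
    by_contra hc
    push Not at hc
    nlinarith
  have : (nm u : ℤ) ≤ f := by nlinarith
  exact_mod_cast this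

lemma descent (hD : t ^ 2 < 4 * c) {f : ℕ} (hf : 4 * c = t ^ 2 + f) (hf3 : 3 ≤ f)
    (lab : Qd t c → A) (Y Y' : ℝ) (hY : (f : ℝ) ≤ Y) : ∀ n : ℕ, ∀ u v : Qd t c,
    nm u + nm v ≤ n → V u v → Y < (nm (u + v) : ℝ) → (nm u : ℝ) ≤ Y' → (nm v : ℝ) ≤ Y' →
    ∃ e ∈ edge t c Y, ∀ g ∈ lv (TT lab Y' (u, v)) u v, g ∈ lv (TT lab Y' e) e.1 e.2 := by
  intro n
  induction n with
  | zero =>
    intro u v hn h
    have := (pos_of_dt hD h.1).1
    omega
  | succ n ih =>
    intro u v hn h hs hc hd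
    by_cases hcd : (nm u : ℝ) ≤ Y ∧ (nm v : ℝ) ≤ Y
    · exact ⟨(u, v), edge_of_V hD h hcd.1 hcd.2 hs, fun g hg => hg⟩
    · obtain ⟨p1, p2⟩ := pos_of_dt hD h.1
      rcases lt_trichotomy (nm u) (nm v) with hlt | heq | hlt
      · have hdY : Y < (nm v : ℝ) := by
          by_contra hcon
          push Not at hcon
          have : (nm u : ℝ) ≤ nm v := by exact_mod_cast hlt.le
          exact hcd ⟨this.trans hcon, hcon⟩
        have hfv : f < nm v := by
          have : (f : ℝ) < nm v := hY.trans_lt hdY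
          exact_mod_cast this
        obtain ⟨hV, hle⟩ := parent_right hD hf h hlt hfv
        have hadd : u + (v - u) = v := by abel
        have hdc : (nm (v - u) : ℝ) ≤ Y' := by
          have : (nm (v - u) : ℝ) ≤ nm v := by exact_mod_cast (by omega : nm (v - u) ≤ nm v)
          linarith
        obtain ⟨e, he, hsub⟩ := ih u (v - u) (by omega) hV (by rw [hadd]; exact hdY) hc hdc
        refine ⟨e, he, fun g hg => hsub g ?_⟩
        rw [TT_node hD lab Y' u (v - u) hV (by rw [hadd]; exact hd)]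
        show g ∈ lv (TT lab Y' (u, u + (v - u))) u (u + (v - u)) ++ _
        rw [hadd]
        exact List.mem_append_left _ hg
      · exfalso
        have h1 := eq_norm hD hf hf3 h heq
        have h2 : (nm u : ℝ) ≤ Y := le_trans (by exact_mod_cast h1) hY
        apply hcd
        rw [← heq]
        exact ⟨h2, h2⟩
      · have hcY : Y < (nm u : ℝ) := by
          by_contra hcon
          push Not at hcon
          have : (nm v : ℝ) ≤ nm u := by exact_mod_cast hlt.le
          exact hcd ⟨hcon, this.trans hcon⟩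
        have hfu : f < nm u := by
          have : (f : ℝ) < nm u := hY.trans_lt hcY
          exact_mod_cast this
        obtain ⟨hV, hle⟩ := parent_left hD hf h hlt hfu
        have hadd : (u - v) + v = u := by abel
        have hdc : (nm (u - v) : ℝ) ≤ Y' := by
          have : (nm (u - v) : ℝ) ≤ nm u := by exact_mod_cast (by omega : nm (u - v) ≤ nm u)
          linarith
        obtain ⟨e, he, hsub⟩ := ih (u - v) v (by omega) hV (by rw [hadd]; exact hcY) hdc hd
        refine ⟨e, he, fun g hg => hsub g ?_⟩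
        rw [TT_node hD lab Y' (u - v) v hV (by rw [hadd]; exact hc)]
        show g ∈ _ ++ lv (TT lab Y' ((u - v) + v, v)) ((u - v) + v) v
        rw [hadd]
        exact List.mem_append_right _ hg

/-- two edges with a common interior vector are equal -/
lemma uniq (hD : t ^ 2 < 4 * c) {f : ℕ} (hf : 4 * c = t ^ 2 + f) (hf3 : 3 ≤ f) {Y : ℝ}
    (hY : (f : ℝ) ≤ Y) {a b a' b' : Qd t c} (h : (a, b) ∈ edge t c Y) (h' : (a', b') ∈ edge t c Y)
    (w : Qd t c) (h1 : 0 < dt a w) (h2 : 0 < dt w b) (h3 : 0 < dt a' w) (h4 : 0 < dt w b') :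
    (a, b) = (a', b') := by
  obtain ⟨hV, ha, hb, hs⟩ := V_of_edge hD hf hf3 hY h
  obtain ⟨hV', ha', hb', hs'⟩ := V_of_edge hD hf hf3 hY h'
  have d1 := hV.1
  have d2 := hV'.1
  rw [dtZ] at d1 d2
  -- no short vector in the open cones
  have key : ∀ {a b z : Qd t c}, V a b → Y < (nm (a + b) : ℝ) → (nm z : ℝ) ≤ Y → 0 < dt a z →
      0 < dt z b → False := by
    intro a b z hV hs hz h1 h2
    have hd := hV.1
    rw [dtZ] at hd
    have := hV.comb hD (dt z b) (dt a z) h2 h1 z (by rw [dtZ, dtZ]; linear_combination (-z.re) * hd)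
      (by rw [dtZ, dtZ]; linear_combination (-z.im) * hd)
    have : (nm (a + b) : ℝ) ≤ nm z := by exact_mod_cast this
    linarith
  obtain ⟨σ, hs0⟩ : ∃ σ, σ = dt a' b := ⟨_, rfl⟩
  obtain ⟨τ, ht0⟩ : ∃ τ, τ = dt a a' := ⟨_, rfl⟩
  obtain ⟨σ', hs0'⟩ : ∃ σ', σ' = dt b' b := ⟨_, rfl⟩
  obtain ⟨τ', ht0'⟩ : ∃ τ', τ' = dt a b' := ⟨_, rfl⟩
  have k1 : ¬ (0 < τ ∧ 0 < σ) := by
    rintro ⟨q1, q2⟩
    exact key hV hs ha' (by rw [← ht0]; exact q1) (by rw [← hs0]; exact q2)
  have k2 : ¬ (0 < τ' ∧ 0 < σ') := by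
    rintro ⟨q1, q2⟩
    exact key hV hs hb' (by rw [← ht0']; exact q1) (by rw [← hs0']; exact q2)
  have e1 : dt a' a = -τ := by rw [ht0, dtZ, dtZ]; ring
  have e2 : dt b b' = -σ' := by rw [hs0', dtZ, dtZ]; ring
  have k3 : ¬ (0 < -τ ∧ 0 < τ') := by
    rintro ⟨q1, q2⟩
    exact key hV' hs' ha (by rw [e1]; exact q1) (by rw [← ht0']; exact q2)
  have k4 : ¬ (0 < σ ∧ 0 < -σ') := by
    rintro ⟨q1, q2⟩
    exact key hV' hs' hb (by rw [← hs0]; exact q1) (by rw [e2]; exact q2)
  have hdet : σ * τ' - σ' * τ = 1 := by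
    rw [hs0, ht0, hs0', ht0', dtZ, dtZ, dtZ, dtZ]
    linear_combination d2 + (a'.re * b'.im - a'.im * b'.re) * d1
  obtain ⟨al, hal⟩ : ∃ al, al = dt w b := ⟨_, rfl⟩
  obtain ⟨be, hbe⟩ : ∃ be, be = dt a w := ⟨_, rfl⟩
  obtain ⟨al', hal'⟩ : ∃ al', al' = dt w b' := ⟨_, rfl⟩
  obtain ⟨be', hbe'⟩ : ∃ be', be' = dt a' w := ⟨_, rfl⟩
  have f1 : al = al' * σ + be' * σ' := by
    rw [hal, hal', hbe', hs0, hs0', dtZ, dtZ, dtZ, dtZ, dtZ]
    linear_combination -(w.re * b.im - w.im * b.re) * d2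
  have f2 : be = al' * τ + be' * τ' := by
    rw [hbe, hal', hbe', ht0, ht0', dtZ, dtZ, dtZ, dtZ, dtZ]
    linear_combination -(a.re * w.im - a.im * w.re) * d2
  have f3 : al' = al * τ' - be * σ' := by
    rw [hal, hal', hbe, ht0', hs0', dtZ, dtZ, dtZ, dtZ, dtZ]
    linear_combination -(w.re * b'.im - w.im * b'.re) * d1
  rw [← hbe] at h1
  rw [← hal] at h2
  rw [← hbe'] at h3
  rw [← hal'] at h4
  have hcase : σ = 1 ∧ τ = 0 ∧ σ' = 0 ∧ τ' = 1 := by
    rcases lt_or_ge 0 σ with c1 | c1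
    · have c2 : τ ≤ 0 := by
        by_contra hc
        push Not at hc
        exact k1 ⟨hc, c1⟩
      have c3 : 0 < τ' := by
        by_contra hc
        push Not at hc
        nlinarith
      have c4 : τ = 0 := by
        by_contra hc
        exact k3 ⟨by omega, c3⟩
      have c5 : σ' ≤ 0 := by
        by_contra hc
        push Not at hc
        exact k2 ⟨c3, hc⟩
      have c6 : σ' = 0 := by
        by_contra hc
        exact k4 ⟨c1, by omega⟩
      rw [c4, c6] at hdet
      have c7 : σ * τ' = 1 := by linarith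
      have c8 : σ = 1 := by nlinarith
      rw [c8] at c7
      exact ⟨c8, c4, c6, by linarith⟩
    · exfalso
      have c2 : 0 < σ' := by
        by_contra hc
        push Not at hc
        nlinarith
      have c3 : τ' ≤ 0 := by
        by_contra hc
        push Not at hc
        exact k2 ⟨hc, c2⟩
      nlinarith
  obtain ⟨q1, q2, q3, q4⟩ := hcase
  have g1 : a' = a := by
    rw [q1, dtZ] at hs0
    rw [q2, dtZ] at ht0
    apply QuadraticAlgebra.ext
    · linear_combination a'.re * (-1) * d1 - a.re * hs0 - b.re * ht0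
    · linear_combination a'.im * (-1) * d1 - a.im * hs0 - b.im * ht0
  have g2 : b' = b := by
    rw [q3, dtZ] at hs0'
    rw [q4, dtZ] at ht0'
    apply QuadraticAlgebra.ext
    · linear_combination b'.re * (-1) * d1 - a.re * hs0' - b.re * ht0'
    · linear_combination b'.im * (-1) * d1 - a.im * hs0' - b.im * ht0'
  rw [g1, g2]

end tree

end Pool.Agent.N912.EP.W108EG
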