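import Pool.Agent.N912.ED.W78EGDefs

/-!
Port (helper912) of the parts of `Pool.Agent.W78.EG.Defs` which depend on the set of primes, to all
imaginary quadratic orders and to a set of primes of positive density which are norms of elements.
The other definitions are those of `Pool.Agent.N912.ED.W78EG`.
-/

set_option autoImplicit false

namespace Pool.Agent.N912.EP.W78EG

open Finset Filter
open Pool.Agent.H376R2.MR (FK lam)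
open Pool.Agent.W78.GA (Qd nm prim dt ip lat cellM mE ps DPG ball pball edge dedge ang Ele kap)
open Pool.Agent.W78.EC (Rw Tr SL av rs cd dv psi pts)
open Pool.Agent.W251.GX (Cm PF)
open Pool.Agent.W251.EX (GW Tx Ld S_MRG Sv Tm)
open Pool.Agent.H304R3.HK (Lg)

export Pool.Agent.N912.ED.W78EG (pp cone cw good bO uc Apd S_PNTX Per FS aix Mrs S_MRSX S_PSID
  S_MULT S_DTB S_LN tr TT res lv S_TREE S_ECNT S_RESC InG S_PTS S_BDD AG S_DILX Rel cl g2 S_REGX)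

/-- sets of primes -/
abbrev PS (_f : ℕ) : Type := ℕ → Prop

open scoped Classical in
/-- `t^2 - 4c = -f`, a discriminant; `χ` is a set of primes of positive density -/
structure Fd (t c : ℤ) (f : ℕ) (χ : PS f) : Prop where
  tt : t = 0 ∨ t = 1
  disc : 4 * c = t ^ 2 + f
  three : 3 ≤ f
  dens : ∃ ρ : ℝ, 0 < ρ ∧ Tendsto (fun x : ℝ =>
    (∑ p ∈ (Icc 1 ⌊x⌋₊).filter (fun p => p.Prime ∧ χ p), Real.log p) / x) atTop (nhds ρ)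

/-- the primes of `χ` are norms of elements -/
def Nr (t c : ℤ) {f : ℕ} (χ : PS f) : Prop := ∀ p : ℕ, p.Prime → χ p → ∃ ϖ : Qd t c, nm ϖ = p

variable {t c : ℤ} {f : ℕ}

open scoped Classical in
/-- the primes `p` with `Q < p ≤ 2 Q` in the set `χ` -/
noncomputable def PQ (χ : PS f) (Q : ℕ) : Finset ℕ :=
  (Ioc Q (2 * Q)).filter (fun p => p.Prime ∧ χ p)

open scoped Classical in
/-- `log m` if `m` is in `PQ χ Q`, otherwise `0` -/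
noncomputable def th (χ : PS f) (Q : ℕ) (m : ℤ) : ℝ :=
  if 0 < m ∧ m.toNat ∈ PQ χ Q then Real.log m else 0

theorem toED {χ : PS f} (hF : Fd t c f χ) :
    Pool.Agent.N912.ED.W78EG.Fd t c f (1 : DirichletCharacter ℂ f) :=
  ⟨hF.tt, hF.disc, hF.three⟩

theorem mem_PQ' {χ : PS f} {Q p : ℕ} : p ∈ PQ χ Q ↔ (Q < p ∧ p ≤ 2 * Q) ∧ p.Prime ∧ χ p := by
  classical
  unfold PQ
  rw [mem_filter, mem_Ioc]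

/-- PCNT: the number of primes -/
def S_PCNT (χ : PS f) : Prop := ∃ c₁ C : ℝ, 0 < c₁ ∧ ∃ Q₀ : ℕ, ∀ Q : ℕ, Q₀ ≤ Q →
  c₁ * Q / Real.log Q ≤ ((PQ χ Q).card : ℝ) ∧ ((PQ χ Q).card : ℝ) ≤ C * Q / Real.log Q ∧
  c₁ * Q ≤ ∑ p ∈ PQ χ Q, Real.log p ∧ ∑ p ∈ PQ χ Q, Real.log p ≤ C * Q

/-- DCP: decoupling. For some `Q` in a bounded range, functions of the tree and of the residues
modulo `p`, `p ∈ PQ χ Q`, may be replaced by their averages over the residues. -/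
def S_DCP (t c : ℤ) (χ : PS f) : Prop := ∀ (A : Type) [Fintype A] (K : ℕ)
  (B ε : ℝ), 1 ≤ K → 0 < ε → ∀ Q₁ : ℕ,
  ∃ Q₂ X₀ N₀ : ℕ, ∀ N : ℕ, N₀ ≤ N → ∀ lab : ℕ → Qd t c → A, ∃ Q : ℕ, Q₁ ≤ Q ∧ Q ≤ Q₂ ∧
    ∀ ζ : ℕ → Tr A → ℕ × ℕ × ℕ × ℕ → ℝ, (∀ p T y, |ζ p T y| ≤ B) →
    ∑ X ∈ Ioc X₀ N, 1 / (X : ℝ) ^ 2 * ∑ e ∈ edge t c ((X : ℝ) / (K * Q)),
      |∑ p ∈ PQ χ Q, Real.log p *
        (ζ p (TT (lab X) X e) (res p e) - av p (ζ p) (TT (lab X) X e))| ≤ ε * Real.log N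

open scoped Classical in
/-- LOSS: few pairs of determinant `1` with positive inner product do not lie in the cone over a good
edge after multiplication by a prime element `π` of norm `p` -/
def S_LOSS (t c : ℤ) (χ : PS f) : Prop := ∀ s ε : ℝ, 0 < s → 0 < ε →
  ∃ K₀ : ℕ, ∀ K : ℕ, K₀ ≤ K → ∃ κ₀ : ℝ, 0 < κ₀ ∧
  ∀ κ : ℝ, 0 < κ → κ ≤ κ₀ → ∃ Q₀ : ℕ, ∀ Q : ℕ, Q₀ ≤ Q → ∃ X₀ : ℝ, ∀ X : ℝ, X₀ ≤ X →
    ∀ p ∈ PQ χ Q, ∀ π : Qd t c, nm π = p →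
    (((dedge t c (X / p)).filter (fun e => 0 < pp e.1 e.2 ∧ s * (X / p) < (nm e.1 : ℝ) ∧
      s * (X / p) < (nm e.2 : ℝ) ∧ ¬ InG K κ Q X π e)).card : ℝ) ≤ ε * (X / p)

open scoped Classical in
/-- BIJ: the pairs of determinant `p` of vectors divisible by `π` in the cones -/
def S_BIJ (t c : ℤ) (χ : PS f) : Prop := ∀ (K : ℕ) (κ : ℝ) (Q : ℕ) (X : ℝ)
  (p : ℕ) (π : Qd t c) (r : ℤ) (u v : Qd t c → ℝ),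
  1 ≤ K → 0 < κ → 1 ≤ Q → f * (K * Q : ℝ) ≤ X → p ∈ PQ χ Q → nm π = p → lat p r π →
  (p : ℤ) ∣ r ^ 2 - t * r + c →
  ∑ e ∈ good t c K κ Q X, ∑ v' ∈ cone X e.1 e.2, ∑ w' ∈ cone X e.1 e.2,
    (if dt v' w' = p ∧ lat p r v' then u v' * v w' else 0) =
  ∑ e ∈ (dedge t c (X / p)).filter (InG K κ Q X π), u (π * e.1) * v (π * e.2)

/-- ZX: the functions on the trees. `d₁`, `d₂` are functions of the labels; `ζ₁ + i ζ₂` is the sum of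
`d₁(v) d₂(w)` over the pairs of determinant `p` divisible by a prime element of norm `p` -/
def S_ZX (t c : ℤ) (χ : PS f) : Prop := ∀ (K : ℕ) (κ : ℝ), 1 ≤ K → 0 < κ →
  ∃ B : ℝ, ∀ Q : ℕ, (K : ℝ) / κ < Q →
  ∀ (A : Type) (d₁ d₂ : A → ℂ), (∀ a, ‖d₁ a‖ ≤ 1) → (∀ a, ‖d₂ a‖ ≤ 1) → ∀ r : ℕ → ℤ,
  ∃ ζ₁ ζ₂ : ℕ → Tr A → ℕ × ℕ × ℕ × ℕ → ℝ, (∀ p T y, |ζ₁ p T y| ≤ B ∧ |ζ₂ p T y| ≤ B) ∧
  ∀ (lab : Qd t c → A) (X : ℝ), f * (K * Q : ℝ) ≤ X → ∀ e ∈ good t c K κ Q X, ∀ p ∈ PQ χ Q,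
  (((ζ₁ p (TT lab X e) (res p e) : ℝ) : ℂ) + Complex.I * ((ζ₂ p (TT lab X e) (res p e) : ℝ) : ℂ) =
    (((p : ℝ) + 1) / (2 * Q) : ℝ) * ∑ z ∈ cone X e.1 e.2, ∑ w ∈ cone X e.1 e.2,
      (open scoped Classical in
        if dt z w = p ∧ lat p (r p) z then d₁ (lab z) * d₂ (lab w) else 0)) ∧
  (((av p (ζ₁ p) (TT lab X e) : ℝ) : ℂ) + Complex.I * ((av p (ζ₂ p) (TT lab X e) : ℝ) : ℂ) =
    (1 / (2 * (Q : ℝ)) : ℝ) * ∑ z ∈ cone X e.1 e.2, ∑ w ∈ cone X e.1 e.2,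
      (if dt z w = p then d₁ (lab z) * d₂ (lab w) else 0))

open scoped Classical in
/-- PERX: the estimate for fixed `X` -/
def S_PERX (t c : ℤ) (χ : PS f) : Prop := ∀ (K : ℕ) (κ : ℝ) (Q : ℕ) (X : ℝ)
  (A : Type) (d₁ d₂ : A → ℂ) (lab : Qd t c → A)
  (ϖ : ℕ → Qd t c) (r : ℕ → ℤ) (ζ₁ ζ₂ : ℕ → Tr A → ℕ × ℕ × ℕ × ℕ → ℝ), 1 ≤ K → 0 < κ → 1 ≤ Q →
  f * (K * Q : ℝ) ≤ X →
  (∀ p ∈ PQ χ Q, nm (ϖ p) = p ∧ lat p (r p) (ϖ p) ∧ (p : ℤ) ∣ r p ^ 2 - t * r p + c) →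
  (∀ e ∈ good t c K κ Q X, ∀ p ∈ PQ χ Q,
    (((ζ₁ p (TT lab X e) (res p e) : ℝ) : ℂ) + Complex.I * ((ζ₂ p (TT lab X e) (res p e) : ℝ) : ℂ) =
      (((p : ℝ) + 1) / (2 * Q) : ℝ) * ∑ z ∈ cone X e.1 e.2, ∑ w ∈ cone X e.1 e.2,
        (if dt z w = p ∧ lat p (r p) z then d₁ (lab z) * d₂ (lab w) else 0)) ∧
    (((av p (ζ₁ p) (TT lab X e) : ℝ) : ℂ) + Complex.I * ((av p (ζ₂ p) (TT lab X e) : ℝ) : ℂ) =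
      (1 / (2 * (Q : ℝ)) : ℝ) * ∑ z ∈ cone X e.1 e.2, ∑ w ∈ cone X e.1 e.2,
        (if dt z w = p then d₁ (lab z) * d₂ (lab w) else 0))) →
  ‖∑ p ∈ PQ χ Q, ((Real.log p * ((p : ℝ) + 1) : ℝ) : ℂ) *
      ∑ e ∈ (dedge t c (X / p)).filter (InG K κ Q X (ϖ p)),
        d₁ (lab (ϖ p * e.1)) * d₂ (lab (ϖ p * e.2))‖ ≤
    2 * Q * ∑ e ∈ edge t c (X / (K * Q)),
      (|∑ p ∈ PQ χ Q, Real.log p * (ζ₁ p (TT lab X e) (res p e) - av p (ζ₁ p) (TT lab X e))| +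
        |∑ p ∈ PQ χ Q, Real.log p * (ζ₂ p (TT lab X e) (res p e) - av p (ζ₂ p) (TT lab X e))|) +
    ‖∑ e ∈ good t c K κ Q X, ∑ v ∈ cone X e.1 e.2, ∑ w ∈ cone X e.1 e.2,
      d₁ (lab v) * d₂ (lab w) * (th χ Q (dt v w) : ℂ)‖

/-- the sum over the primes, normalised to density `1/2` -/
noncomputable def Sg (χ : PS f) (ρ : ℝ) (a : ℝ → ℂ) (Q : ℕ) (x : ℝ) : ℂ :=
  ∑ p ∈ PQ χ Q, ((Real.log p / (2 * ρ) : ℝ) : ℂ) * a (x / p)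

/-- PW: sums over primes and mesh sums -/
def S_PW (χ : PS f) (ρ : ℝ) : Prop := ∀ (a : ℝ → ℂ) (C : ℝ), Sv a C → ∀ m : ℕ, 1 ≤ m →
  ∃ Q₀ : ℕ, ∀ Q : ℕ, Q₀ ≤ Q → ∃ x₀ : ℝ, ∀ x : ℝ, x₀ ≤ x →
    ‖Sg χ ρ a Q x - ((Q : ℂ) / 2) * Tm m a (x / Q)‖ ≤ 5 * C / m * Q

/-- DCV: deconvolution -/
def S_DCV (χ : PS f) : Prop := ∀ (a : ℝ → ℂ) (C : ℝ), Sv a C →
  (∀ ε : ℝ, 0 < ε → ∀ Q₁ : ℕ,
  ∃ Q₂ N₀ : ℕ, ∀ N : ℕ, N₀ ≤ N → ∃ Q : ℕ, Q₁ ≤ Q ∧ Q ≤ Q₂ ∧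
    ∑ X ∈ Icc 1 N, 1 / (X : ℝ) * ‖∑ p ∈ PQ χ Q, (Real.log p : ℂ) * a ((X : ℝ) / p)‖ ≤
      ε * Q * Real.log N) →
  ∀ ε : ℝ, 0 < ε → ∃ N₀ : ℕ, ∀ N : ℕ, N₀ ≤ N →
    ∑ X ∈ Icc 1 N, 1 / (X : ℝ) * ‖a X‖ ≤ ε * Real.log N

end Pool.Agent.N912.EP.W78EG
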