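import Pool.Agent.N912.EP.W940EGAvx2

/-!
Project EG (helper78), AVX: the mean over the primes, for most scales (port of W214.EX.Avx).
-/

set_option autoImplicit false

namespace Pool.Agent.N912.EP.W940EG

open Finset Filter
open Pool.Agent.W78.GA (Qd nm prim dt ip lat ball pball edge dedge nm_castR nm_cast mem_ball mem_pball)
open Pool.Agent.W78.EC (Tr av)
open Pool.Agent.W251.GX (Cm)
open Pool.Agent.N912.EP.W78EG

variable {t c : ℤ} {f : ℕ} {χ : PS f}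

theorem unif2 {ι : Type} (T : Finset ι) (P : ι → ℕ → ℝ → Prop)
    (h : ∀ k ∈ T, ∃ Q₀ : ℕ, ∀ Q : ℕ, Q₀ ≤ Q → ∃ X₀ : ℝ, ∀ X : ℝ, X₀ ≤ X → P k Q X) :
    ∃ Q₀ : ℕ, ∀ Q : ℕ, Q₀ ≤ Q → ∃ X₀ : ℝ, ∀ X : ℝ, X₀ ≤ X → ∀ k ∈ T, P k Q X := by
  classical
  induction T using Finset.induction_on with
  | empty => exact ⟨0, fun Q _ => ⟨0, fun X _ k hc => absurd hc (notMem_empty k)⟩⟩
  | insert a T ha ih =>
    obtain ⟨Qa, hQa⟩ := h a (mem_insert_self a T)
    obtain ⟨Qb, hQb⟩ := ih fun k hc => h k (mem_insert_of_mem hc)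
    refine ⟨max Qa Qb, fun Q hQ => ?_⟩
    obtain ⟨Xa, hXa⟩ := hQa Q ((le_max_left _ _).trans hQ)
    obtain ⟨Xb, hXb⟩ := hQb Q ((le_max_right _ _).trans hQ)
    refine ⟨max Xa Xb, fun X hX k hc => ?_⟩
    rcases mem_insert.mp hc with h1 | h1
    · rw [h1]
      exact hXa X ((le_max_left _ _).trans hX)
    · exact hXb X ((le_max_right _ _).trans hX) k h1

end Pool.Agent.N912.EP.W940EG
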