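import Pool.Agent.N912.EP.W940EGAvx1

/-!
Project EG (helper78), AVX, part 2: the estimate for fixed `X` (port of W214.EX.Avx2).
-/

set_option autoImplicit false

namespace Pool.Agent.N912.EP.W940EG

open Finset Filter
open Pool.Agent.W78.GA (Qd nm prim dt ip lat ball pball edge dedge nm_castR nm_cast mem_ball mem_pball)
open Pool.Agent.W78.EC (Tr av)
open Pool.Agent.W251.GX (Cm)
open Pool.Agent.N912.EP.W78EG

variable {t c : ℤ} {f : ℕ} {χ : PS f}

theorem PQ_mem {Q p : ℕ} (h : p ∈ PQ χ Q) : Q < p ∧ p ≤ 2 * Q ∧ p.Prime ∧ χ p := by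
  classical
  unfold PQ at h
  rw [mem_filter, mem_Ioc] at h
  exact ⟨h.1.1, h.1.2, h.2.1, h.2.2⟩

theorem log_nonneg_PQ {Q p : ℕ} (_hp : p ∈ PQ χ Q) : 0 ≤ Real.log p :=
  Real.log_natCast_nonneg p

/-- a prime with `χ(p) = 1` is the norm of an element -/
theorem exists_pi (hF : Fd t c f χ) (hn : Nr t c χ) {p : ℕ} (hp : p.Prime) (h4 : χ p) :
    ∃ (π : Qd t c) (r : ℤ), nm π = p ∧ lat p r π ∧ (p : ℤ) ∣ r ^ 2 - t * r + c := by
  obtain ⟨z, hz⟩ := hn p hp h4
  have hD := Pool.Agent.N912.ED.W804EG.hD_of (toED hF)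
  have hn : (p : ℤ) = z.re ^ 2 + t * z.re * z.im + c * z.im ^ 2 := by
    rw [← hz]
    exact nm_cast hD z
  have hpp : Prime (p : ℤ) := Nat.prime_iff_prime_int.1 hp
  have hcop : IsCoprime (z.im) (p : ℤ) := by
    have h5 : ¬ (p : ℤ) ∣ z.im := by
      intro h5
      have h6 : (p : ℤ) ∣ z.re ^ 2 := by
        have e : z.re ^ 2 = p - z.im * (t * z.re + c * z.im) := by rw [hn]; ring
        rw [e]
        exact dvd_sub (dvd_refl _) (h5.mul_right _)
      have h7 := hpp.dvd_of_dvd_pow h6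
      obtain ⟨x, hx⟩ := h7
      obtain ⟨y, hy⟩ := h5
      have h8 : (p : ℤ) * (p * (x ^ 2 + t * x * y + c * y ^ 2)) = p * 1 := by
        rw [mul_one]
        conv_rhs => rw [hn, hx, hy]
        ring
      have h9 := mul_left_cancel₀ hpp.ne_zero h8
      exact hpp.not_isUnit (IsUnit.of_mul_eq_one _ h9)
    exact ((Prime.coprime_iff_not_dvd hpp).2 h5).symm
  obtain ⟨u, v, huv⟩ := hcop
  refine ⟨z, -z.re * u, hz, ?_, ?_⟩
  · refine ⟨z.re * v, ?_⟩
    linear_combination (-z.re) * huv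
  · obtain ⟨k, hk⟩ : ∃ k : ℤ, z.re ^ 2 + t * z.re * z.im + c * z.im ^ 2 = p * k := ⟨1, by rw [← hn]; ring⟩
    refine ⟨u ^ 2 * k + v * (t * z.re * u + c * (1 + u * z.im)), ?_⟩
    linear_combination u ^ 2 * hk - (t * z.re * u + c * (1 + u * z.im)) * huv

theorem nmZ (hD : t ^ 2 < 4 * c) (z : Qd t c) :
    (nm z : ℤ) = z.re ^ 2 + t * z.re * z.im + c * z.im ^ 2 := nm_cast hD z

theorem pp_mul (hD : t ^ 2 < 4 * c) (q v w : Qd t c) : pp (q * v) (q * w) = nm q * pp v w := by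
  rw [nmZ hD]
  unfold pp ip dt
  simp only [QuadraticAlgebra.re_mul, QuadraticAlgebra.im_mul]
  ring

/-- pairs in a cone over a good edge have positive inner product -/
theorem InG_pp (hF : Fd t c f χ) {K : ℕ} {κ : ℝ} {Q : ℕ} {X : ℝ} {π : Qd t c} (hK : 1 ≤ K)
    (hκ : 0 < κ) (hQ : 1 ≤ Q) (hX : f * (K * Q : ℝ) ≤ X) {e : Qd t c × Qd t c}
    (h : InG K κ Q X π e) : 0 < pp e.1 e.2 := by
  have hD := Pool.Agent.N912.ED.W804EG.hD_of (toED hF)
  obtain ⟨g, hg, h1, h2⟩ := h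
  have hge := Pool.Agent.N912.ED.W804EG.ge_of_good (toED hF) hK hκ hQ hX hg
  have hdt := hge.det
  have hip := hge.ip
  have hga : 1 ≤ nm g.1 := by
    have : g ∈ edge t c (X / (K * Q)) := (mem_filter.1 hg).1
    unfold edge at this
    have h3 := (mem_product.1 (mem_filter.1 this).1).1
    unfold pball ball at h3
    exact (mem_filter.1 (mem_filter.1 h3).1).2.1
  unfold cone at h1 h2
  have h1' := (mem_filter.1 h1).2
  have h2' := (mem_filter.1 h2).2
  set v := π * e.1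
  set w := π * e.2
  have key : pp v w = 2 * (dt v g.2 * dt w g.2 * nm g.1) + 2 * (dt g.1 v * dt g.1 w * nm g.2) +
      (dt v g.2 * dt g.1 w + dt g.1 v * dt w g.2) * pp g.1 g.2 := by
    have hn1 := nmZ hD g.1
    have hn2 := nmZ hD g.2
    rw [hn1, hn2]
    have h := hdt
    unfold dt at h
    have hv1 : v.re = dt v g.2 * g.1.re + dt g.1 v * g.2.re := by
      unfold dt
      linear_combination (-v.re) * h
    have hv2 : v.im = dt v g.2 * g.1.im + dt g.1 v * g.2.im := by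
      unfold dt
      linear_combination (-v.im) * h
    have hw1 : w.re = dt w g.2 * g.1.re + dt g.1 w * g.2.re := by
      unfold dt
      linear_combination (-w.re) * h
    have hw2 : w.im = dt w g.2 * g.1.im + dt g.1 w * g.2.im := by
      unfold dt
      linear_combination (-w.im) * h
    have e1 : pp v w = 2 * v.re * w.re + t * (v.im * w.re + v.re * w.im) + 2 * c * v.im * w.im := by
      unfold pp ip dt
      ring
    have e2 : pp g.1 g.2 = 2 * g.1.re * g.2.re + t * (g.1.im * g.2.re + g.1.re * g.2.im) +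
        2 * c * g.1.im * g.2.im := by
      unfold pp ip dt
      ring
    rw [e1, e2, hv1, hv2, hw1, hw2]
    generalize dt v g.2 = x1
    generalize dt g.1 v = y1
    generalize dt w g.2 = x2
    generalize dt g.1 w = y2
    ring
  have hpos : 0 < pp v w := by
    rw [key]
    have a1 := h1'.1
    have a2 := h1'.2
    have b1 := h2'.1
    have b2 := h2'.2
    have n1 : (0 : ℤ) < nm g.1 := by exact_mod_cast hga
    have n2 : (0 : ℤ) ≤ nm g.2 := Int.natCast_nonneg _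
    have c1 : 0 < dt v g.2 * dt w g.2 * nm g.1 := by positivity
    have c2 : 0 ≤ dt g.1 v * dt g.1 w * nm g.2 := by positivity
    have c3 : 0 ≤ (dt v g.2 * dt g.1 w + dt g.1 v * dt w g.2) * pp g.1 g.2 := by positivity
    linarith
  rw [pp_mul hD] at hpos
  exact (pos_iff_pos_of_mul_pos hpos).1 (by
    rcases Nat.eq_zero_or_pos (nm π) with h0 | h0
    · rw [h0] at hpos
      simp at hpos
    · exact_mod_cast h0)

/-- triple sums over the cones -/
noncomputable def S3 {M : Type} [AddCommMonoid M] (K : ℕ) (κ : ℝ) (Q : ℕ) (X s₃ s₄ : ℝ)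
    (φ : Qd t c → Qd t c → M) : M :=
  ∑ e ∈ good t c K κ Q X, ∑ v ∈ cone X e.1 e.2, ∑ w ∈ cw X s₃ s₄ e.1 e.2, φ v w

theorem S3_congr {M : Type} [AddCommMonoid M] {K : ℕ} {κ : ℝ} {Q : ℕ} {X s₃ s₄ : ℝ}
    {φ g : Qd t c → Qd t c → M} (h : ∀ v w, φ v w = g v w) :
    S3 K κ Q X s₃ s₄ φ = S3 K κ Q X s₃ s₄ g := by
  unfold S3
  exact sum_congr rfl fun e _ => sum_congr rfl fun v _ => sum_congr rfl fun w _ => h v w

theorem S3_add {K : ℕ} {κ : ℝ} {Q : ℕ} {X s₃ s₄ : ℝ} (φ g : Qd t c → Qd t c → ℂ) :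
    S3 K κ Q X s₃ s₄ (fun v w => φ v w + g v w) = S3 K κ Q X s₃ s₄ φ + S3 K κ Q X s₃ s₄ g := by
  unfold S3
  simp only [sum_add_distrib]

theorem S3_mul {K : ℕ} {κ : ℝ} {Q : ℕ} {X s₃ s₄ : ℝ} (k : ℂ) (φ : Qd t c → Qd t c → ℂ) :
    S3 K κ Q X s₃ s₄ (fun v w => k * φ v w) = k * S3 K κ Q X s₃ s₄ φ := by
  unfold S3
  simp only [mul_sum]

theorem S3_real {K : ℕ} {κ : ℝ} {Q : ℕ} {X s₃ s₄ : ℝ} (φ : Qd t c → Qd t c → ℝ) :
    S3 K κ Q X s₃ s₄ (fun v w => ((φ v w : ℝ) : ℂ)) = ((S3 K κ Q X s₃ s₄ φ : ℝ) : ℂ) := by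
  unfold S3
  push_cast
  rfl

end Pool.Agent.N912.EP.W940EG
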